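import Mathlib
import Pool.Prelude.Def_F_c31e40fa
import Pool.Agent.W216.MB.BAS
import Pool.Agent.W216.MB.ALV
import Pool.Agent.W410.MB.ATT
import Pool.Agent.W762.MB.PHS
import Pool.Agent.H712R2.MultiCoarse

/-! # Escape and attraction on the unit circle -/

set_option autoImplicit false

open Set N62a1eb23
open Pool.Agent.W747.MB

namespace Pool.Agent.N228.UC

/-- on the unit circle, the critical orbit of a point of the Multibrot set is bounded by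
`2 ^ (1 / (n - 1))` -/
theorem pow_le_two {n : ℕ} (hn : 3 ≤ n) {c : ℂ} (hc : ‖c‖ = 1) (hM : c ∈ multibrotSet n) (j : ℕ) :
    ‖A n c j‖ ^ (n - 1) ≤ 2 := by
  by_contra hcon
  push Not at hcon
  have hn2 : 2 ≤ n := by omega
  rw [Pool.Agent.H712R2.mem_multibrot_iff hn2] at hM
  set r := ‖A n c j‖ with hr
  have hr0 : 0 ≤ r := norm_nonneg _
  set η := r ^ (n - 1) - 1 with hη
  have hη1 : 1 < η := by linarith
  have hr1 : 1 < r := by
    by_contra h
    push Not at h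
    have := pow_le_one₀ (n := n - 1) hr0 h
    linarith
  have hP : ‖Pool.Agent.H712R2.P n (j + 1) c‖ = r := by
    have h := Pool.Agent.W216.MB.ALV.iter_eq n hn2 c j
    have h2 : Pool.Agent.H712R2.P n (j + 1) c = c * A n c j := h
    rw [h2, norm_mul, hc, one_mul]
  have key : ∀ k, r * η ^ k ≤ ‖Pool.Agent.H712R2.P n (j + 1 + k) c‖ := by
    intro k
    induction k with
    | zero => simp [hP]
    | succ k ih =>
      set z := Pool.Agent.H712R2.P n (j + 1 + k) c with hz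
      have h1 : r ≤ ‖z‖ := by
        refine le_trans ?_ ih
        have : 1 ≤ η ^ k := one_le_pow₀ hη1.le
        nlinarith
      have h2 : Pool.Agent.H712R2.P n (j + 1 + (k + 1)) c = z ^ n + c :=
        Pool.Agent.H712R2.P_succ n (j + 1 + k) c
      have h3 : ‖z ^ n‖ - ‖c‖ ≤ ‖z ^ n + c‖ := by
        have := norm_sub_le (z ^ n + c) c
        rw [add_sub_cancel_right] at this
        linarith
      have h4 : ‖z ^ n‖ = ‖z‖ * ‖z‖ ^ (n - 1) := by
        rw [norm_pow, ← pow_succ']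
        congr 1; omega
      have h5 : r ^ (n - 1) ≤ ‖z‖ ^ (n - 1) := pow_le_pow_left₀ hr0 h1 _
      rw [h2, pow_succ]
      rw [h4, hc] at h3
      have h6 : ‖z‖ * η ≤ ‖z‖ * ‖z‖ ^ (n - 1) - 1 := by
        have h7 : 1 ≤ ‖z‖ := by linarith
        have h8 : ‖z‖ * η = ‖z‖ * r ^ (n - 1) - ‖z‖ := by rw [hη]; ring
        rw [h8]
        nlinarith
      calc r * (η ^ k * η) = (r * η ^ k) * η := by ring
        _ ≤ ‖z‖ * η := mul_le_mul_of_nonneg_right ih (by linarith)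
        _ ≤ _ := by linarith
  obtain ⟨k, hk⟩ := pow_unbounded_of_one_lt 2 hη1
  have h6 := key k
  have h7 := hM (j + 1 + k)
  have h8 : η ^ k ≤ r * η ^ k := by
    have : 0 < η ^ k := by positivity
    nlinarith
  linarith

theorem Y_one {n : ℕ} {c : ℂ} (hc : ‖c‖ = 1) : Y n c = n := by
  unfold Y; rw [hc]; simp

theorem A_succ {n : ℕ} (hn : 2 ≤ n) (c : ℂ) (j : ℕ) :
    A n c (j + 1) = 1 + c ^ (n - 1) * A n c j ^ n := by
  have hn0 : (n : ℂ) ≠ 0 := by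
    have : n ≠ 0 := by omega
    exact_mod_cast this
  have h1 : X n c (j + 1) = n * c ^ (n - 1) * A n c j ^ n := rfl
  rw [A, h1]
  field_simp

theorem A_zero (n : ℕ) (c : ℂ) : A n c 0 = 1 := by simp [A, X]

theorem A_one {n : ℕ} (hn : 2 ≤ n) (c : ℂ) : A n c 1 = 1 + c ^ (n - 1) := by
  rw [A_succ hn, A_zero, one_pow, mul_one]

theorem normX {n : ℕ} {c : ℂ} (hc : ‖c‖ = 1) (j : ℕ) : ‖X n c (j + 1)‖ = n * ‖A n c j‖ ^ n := by
  have h1 : X n c (j + 1) = n * c ^ (n - 1) * A n c j ^ n := rfl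
  rw [h1, norm_mul, norm_mul, norm_pow, norm_pow, hc, Complex.norm_natCast]
  simp

/-- derivative bounds at levels one, two and three -/
theorem ph1 {n : ℕ} (hn : 2 ≤ n) {c : ℂ} (hc : ‖c‖ = 1) : PhAt n c 1 (2 * n) := by
  have hn' : (2:ℝ) ≤ n := by exact_mod_cast hn
  have h := (Pool.Agent.W216.MB.BAS.main n hn c (by rw [Y_one hc]; linarith)).1
  rw [Y_one hc] at h
  apply h.ph c
  unfold DD
  exact Metric.mem_closedBall_self (by positivity)

theorem ph2 {n : ℕ} (hn : 2 ≤ n) {c : ℂ} (hc : ‖c‖ = 1) (h1 : 4 / 5 ≤ ‖A n c 1‖)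
    (h2 : ‖A n c 1‖ ^ n ≤ 3) : PhAt n c 2 (9 * n ^ 2) := by
  have hn' : (2:ℝ) ≤ n := by exact_mod_cast hn
  have hc0 : c ≠ 0 := norm_pos_iff.mp (by rw [hc]; norm_num)
  refine Pool.Agent.W762.MB.main n hn c 1 (2 * n) _ hc0 (by linarith) (by nlinarith)
    (ph1 hn hc) h1 ?_
  rw [normX hc]
  nlinarith [norm_nonneg (A n c 1)]

theorem ph3 {n : ℕ} (hn : 2 ≤ n) {c : ℂ} (hc : ‖c‖ = 1) (h1 : 4 / 5 ≤ ‖A n c 1‖)
    (h2 : ‖A n c 1‖ ^ n ≤ 3) (h3 : 4 / 5 ≤ ‖A n c 2‖) (h4 : ‖A n c 2‖ ^ n ≤ 3) :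
    PhAt n c 3 (41 * n ^ 3) := by
  have hn' : (2:ℝ) ≤ n := by exact_mod_cast hn
  have hc0 : c ≠ 0 := norm_pos_iff.mp (by rw [hc]; norm_num)
  refine Pool.Agent.W762.MB.main n hn c 2 (9 * n ^ 2) _ hc0 (by nlinarith) ?_
    (ph2 hn hc h1 h2) h3 ?_
  · have : (n:ℝ) ^ 3 = n * n ^ 2 := by ring
    rw [this]; nlinarith [sq_nonneg (n:ℝ)]
  · rw [normX hc]
    have : (n:ℝ) ^ 3 = n * n ^ 2 := by ring
    rw [this]
    have h5 : (n:ℝ) * ‖A n c 2‖ ^ n ≤ n * 3 := mul_le_mul_of_nonneg_left h4 (by linarith)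
    have h6 : 0 ≤ (n:ℝ) ^ 2 := sq_nonneg _
    nlinarith

/-- numerical estimate for the criteria -/
theorem num {n : ℕ} (hn : 10 ^ 6 ≤ n) {a : ℝ} (ha0 : 0 ≤ a)
    (ha : a ^ 2 ≤ 1 - 12 * Real.log n / n) :
    (a + 1 / (10 * n)) ^ (n - 1) * (n:ℝ) ^ 4 * 1640 ≤ 1 / n := by
  have hnr : (10:ℝ) ^ 6 ≤ n := by exact_mod_cast hn
  have hn0 : (0:ℝ) < n := by linarith
  set ℓ := Real.log n with hℓ
  have hℓ0 : 0 < ℓ := Real.log_pos (by linarith)
  have hexp : Real.exp ℓ = n := Real.exp_log hn0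
  have hℓn : 12 * ℓ / n ≤ 1 / 2 := by
    rw [div_le_iff₀ hn0]
    have h1 := Real.log_le_sub_one_of_pos (show 0 < (n:ℝ) / 100 by positivity)
    rw [Real.log_div (by linarith) (by norm_num)] at h1
    have h2 : Real.log 100 ≤ 99 := (Real.log_le_sub_one_of_pos (by norm_num)).trans (by norm_num)
    rw [← hℓ] at h1
    linarith
  -- `a ≤ exp (- 6 ℓ / n)`
  have h1 : a ≤ Real.exp (-(6 * ℓ / n)) := by
    have h2 : a ^ 2 ≤ (Real.exp (-(6 * ℓ / n))) ^ 2 := by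
      rw [← Real.exp_nat_mul]
      have h3 := Real.add_one_le_exp (-(12 * ℓ / n))
      have h4 : ((2:ℕ):ℝ) * -(6 * ℓ / n) = -(12 * ℓ / n) := by push_cast; ring
      rw [h4]; linarith
    exact (pow_le_pow_iff_left₀ ha0 (Real.exp_pos _).le two_ne_zero).mp h2
  set e := Real.exp (-(6 * ℓ / n)) with he
  have he1 : 3 / 4 ≤ e := by
    have := Real.add_one_le_exp (-(6 * ℓ / n))
    have h5 : 6 * ℓ / n = 12 * ℓ / n / 2 := by ring
    linarith
  have h2 : a + 1 / (10 * n) ≤ e * Real.exp (1 / (7 * n)) := by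
    have h3 := Real.add_one_le_exp (1 / (7 * (n:ℝ)))
    have h4 : 1 / (10 * (n:ℝ)) ≤ 3 / 4 * (1 / (7 * n)) := by
      rw [div_le_iff₀ (by positivity)]
      field_simp
      norm_num
    have h5 : 0 < 1 / (7 * (n:ℝ)) := by positivity
    nlinarith
  have h3 : (a + 1 / (10 * n)) ^ (n - 1) ≤ (e * Real.exp (1 / (7 * n))) ^ (n - 1) :=
    pow_le_pow_left₀ (by positivity) h2 _
  have hcast : ((n - 1 : ℕ) : ℝ) = (n : ℝ) - 1 := by
    rw [Nat.cast_sub (by omega), Nat.cast_one]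
  have h4 : (e * Real.exp (1 / (7 * n))) ^ (n - 1) ≤ Real.exp (-(59 / 10 * ℓ)) := by
    rw [he, ← Real.exp_add, ← Real.exp_nat_mul, hcast]
    apply Real.exp_le_exp.mpr
    have h5 : ((n:ℝ) - 1) * (-(6 * ℓ / n) + 1 / (7 * n)) =
        -(6 * ℓ) + 6 * ℓ / n + (1 / 7 - 1 / (7 * n)) := by field_simp; ring
    rw [h5]
    have h6 : 0 < 1 / (7 * (n:ℝ)) := by positivity
    have h7 : 6 * ℓ / n ≤ ℓ / 1000 := by
      rw [div_le_div_iff₀ hn0 (by norm_num)]; nlinarith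
    have h8 : 13 ≤ ℓ := by
      rw [hℓ, Real.le_log_iff_exp_le hn0]
      have h9 : Real.exp 13 = (Real.exp 1) ^ 13 := by rw [← Real.exp_nat_mul]; norm_num
      rw [h9]
      calc (Real.exp 1) ^ 13 ≤ (2.7182818286:ℝ) ^ 13 := by
            gcongr
            exact Real.exp_one_lt_d9.le
        _ ≤ 10 ^ 6 := by norm_num
        _ ≤ n := hnr
    linarith
  have h5 : (a + 1 / (10 * n)) ^ (n - 1) ≤ Real.exp (-(59 / 10 * ℓ)) := h3.trans h4
  have h6 : Real.exp (-(59 / 10 * ℓ)) * (n:ℝ) ^ 5 * 1640 ≤ 1 := by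
    have h7 : (n:ℝ) ^ 5 = Real.exp (5 * ℓ) := by
      rw [← hexp, ← Real.exp_nat_mul]; norm_num
    have h8 : (1640:ℝ) ≤ Real.exp (9 / 10 * ℓ) := by
      have h9 : 13 ≤ ℓ := by
        rw [hℓ, Real.le_log_iff_exp_le hn0]
        have h9 : Real.exp 13 = (Real.exp 1) ^ 13 := by rw [← Real.exp_nat_mul]; norm_num
        rw [h9]
        calc (Real.exp 1) ^ 13 ≤ (2.7182818286:ℝ) ^ 13 := by
              gcongr
              exact Real.exp_one_lt_d9.le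
          _ ≤ 10 ^ 6 := by norm_num
          _ ≤ n := hnr
      have h10 : Real.exp 11 ≤ Real.exp (9 / 10 * ℓ) := Real.exp_le_exp.mpr (by linarith)
      have h11 : Real.exp 11 = (Real.exp 1) ^ 11 := by rw [← Real.exp_nat_mul]; norm_num
      have h12 : (1640:ℝ) ≤ (Real.exp 1) ^ 11 := by
        calc (1640:ℝ) ≤ (2.7182818283:ℝ) ^ 11 := by norm_num
          _ ≤ _ := by
            gcongr
            exact Real.exp_one_gt_d9.le
      linarith
    rw [h7, ← Real.exp_add]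
    have h9 : -(59 / 10 * ℓ) + 5 * ℓ = -(9 / 10 * ℓ) := by ring
    rw [h9]
    have h10 : Real.exp (-(9 / 10 * ℓ)) * Real.exp (9 / 10 * ℓ) = 1 := by
      rw [← Real.exp_add]; simp
    have h11 := Real.exp_pos (-(9 / 10 * ℓ))
    nlinarith
  rw [le_div_iff₀ hn0]
  calc (a + 1 / (10 * n)) ^ (n - 1) * (n:ℝ) ^ 4 * 1640 * n
      = (a + 1 / (10 * n)) ^ (n - 1) * ((n:ℝ) ^ 5 * 1640) := by ring
    _ ≤ Real.exp (-(59 / 10 * ℓ)) * ((n:ℝ) ^ 5 * 1640) :=
        mul_le_mul_of_nonneg_right h5 (by positivity)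
    _ = Real.exp (-(59 / 10 * ℓ)) * (n:ℝ) ^ 5 * 1640 := by ring
    _ ≤ 1 := h6

/-- criterion at level two -/
theorem hyp2 {n : ℕ} (hn : 10 ^ 6 ≤ n) {c : ℂ} (hc : ‖c‖ = 1) (h1 : 4 / 5 ≤ ‖A n c 1‖)
    (h2 : ‖A n c 1‖ ^ n ≤ 3) (h : ‖A n c 2‖ ^ 2 ≤ 1 - 12 * Real.log n / n) : c ∈ hyp n := by
  have hn2 : 2 ≤ n := le_trans (by norm_num) hn
  have hnr : (10:ℝ) ^ 6 ≤ n := by exact_mod_cast hn
  have hn0 : (0:ℝ) < n := by linarith
  have hk := num hn (norm_nonneg _) h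
  have hb : 0 ≤ (‖A n c 2‖ + 1 / (10 * n)) ^ (n - 1) := by positivity
  refine Pool.Agent.W410.MB.ATT.main n hn2 c 2 (9 * n ^ 2) (by rw [Y_one hc]; linarith)
    (by nlinarith) (ph2 hn2 hc h1 h2) ?_
  rw [Y_one hc, le_div_iff₀ (by positivity)]
  rw [le_div_iff₀ hn0] at hk
  have h5 : (1:ℝ) ≤ n ^ 2 := by nlinarith
  have h6 : 0 ≤ (‖A n c 2‖ + 1 / (10 * n)) ^ (n - 1) * (n:ℝ) ^ 3 := by positivity
  calc (n:ℝ) * (‖A n c 2‖ + 1 / (10 * n)) ^ (n - 1) * (40 * (9 * n ^ 2))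
      = ((‖A n c 2‖ + 1 / (10 * n)) ^ (n - 1) * (n:ℝ) ^ 3) * 360 := by ring
    _ ≤ ((‖A n c 2‖ + 1 / (10 * n)) ^ (n - 1) * (n:ℝ) ^ 3) * (1640 * n ^ 2) := by
        apply mul_le_mul_of_nonneg_left _ h6
        linarith
    _ = (‖A n c 2‖ + 1 / (10 * n)) ^ (n - 1) * (n:ℝ) ^ 4 * 1640 * n := by ring
    _ ≤ 1 := hk

/-- criterion at level three -/
theorem hyp3 {n : ℕ} (hn : 10 ^ 6 ≤ n) {c : ℂ} (hc : ‖c‖ = 1) (h1 : 4 / 5 ≤ ‖A n c 1‖)
    (h2 : ‖A n c 1‖ ^ n ≤ 3) (h3 : 4 / 5 ≤ ‖A n c 2‖) (h4 : ‖A n c 2‖ ^ n ≤ 3)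
    (h : ‖A n c 3‖ ^ 2 ≤ 1 - 12 * Real.log n / n) : c ∈ hyp n := by
  have hn2 : 2 ≤ n := le_trans (by norm_num) hn
  have hnr : (10:ℝ) ^ 6 ≤ n := by exact_mod_cast hn
  have hn0 : (0:ℝ) < n := by linarith
  have hk := num hn (norm_nonneg _) h
  have hb : 0 ≤ (‖A n c 3‖ + 1 / (10 * n)) ^ (n - 1) := by positivity
  refine Pool.Agent.W410.MB.ATT.main n hn2 c 3 (41 * n ^ 3) (by rw [Y_one hc]; linarith)
    ?_ (ph3 hn2 hc h1 h2 h3 h4) ?_
  · have : (1:ℝ) ≤ n ^ 3 := one_le_pow₀ (by linarith)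
    linarith
  rw [Y_one hc, le_div_iff₀ (by positivity)]
  rw [le_div_iff₀ hn0] at hk
  have h6 : 0 ≤ (‖A n c 3‖ + 1 / (10 * n)) ^ (n - 1) * (n:ℝ) ^ 4 := by positivity
  calc (n:ℝ) * (‖A n c 3‖ + 1 / (10 * n)) ^ (n - 1) * (40 * (41 * n ^ 3))
      = ((‖A n c 3‖ + 1 / (10 * n)) ^ (n - 1) * (n:ℝ) ^ 4) * 1640 := by ring
    _ ≤ ((‖A n c 3‖ + 1 / (10 * n)) ^ (n - 1) * (n:ℝ) ^ 4) * (1640 * n) := by
        apply mul_le_mul_of_nonneg_left _ h6
        linarith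
    _ = (‖A n c 3‖ + 1 / (10 * n)) ^ (n - 1) * (n:ℝ) ^ 4 * 1640 * n := by ring
    _ ≤ 1 := hk

/-- criterion at level one -/
theorem hyp1 {n : ℕ} (hn : 10 ^ 6 ≤ n) {c : ℂ} (hc : ‖c‖ = 1)
    (h : ‖A n c 1‖ ^ n ≤ 1 / (120 * n ^ 2)) : c ∈ hyp n := by
  have hn2 : 2 ≤ n := le_trans (by norm_num) hn
  have hnr : (10:ℝ) ^ 6 ≤ n := by exact_mod_cast hn
  have hn0 : (0:ℝ) < n := by linarith
  set a := ‖A n c 1‖ with ha
  have ha0 : 0 ≤ a := norm_nonneg _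
  have hcast : ((n - 1 : ℕ) : ℝ) = (n : ℝ) - 1 := by
    rw [Nat.cast_sub (by omega), Nat.cast_one]
  refine Pool.Agent.W410.MB.ATT.main n hn2 c 1 (2 * n) (by rw [Y_one hc]; linarith)
    (by linarith) (ph1 hn2 hc) ?_
  rw [Y_one hc, ← ha, le_div_iff₀ (by positivity)]
  -- `(a + 1/(10n))^(n-1) ≤ 1 / (80 n^2)`
  suffices hs : (a + 1 / (10 * n)) ^ (n - 1) ≤ 1 / (80 * n ^ 2) by
    rw [le_div_iff₀ (by positivity)] at hs
    calc (n:ℝ) * (a + 1 / (10 * n)) ^ (n - 1) * (40 * (2 * n))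
        = (a + 1 / (10 * n)) ^ (n - 1) * (80 * n ^ 2) := by ring
      _ ≤ 1 := hs
  rcases le_or_gt (4 / 5) a with h45 | h45
  · have hapos : 0 < a := by linarith
    have h2 : a + 1 / (10 * n) ≤ a * Real.exp (1 / (8 * n)) := by
      have h3 := Real.add_one_le_exp (1 / (8 * (n:ℝ)))
      have h4 : 1 / (10 * (n:ℝ)) = 4 / 5 * (1 / (8 * n)) := by field_simp; norm_num
      have h5 : 0 < 1 / (8 * (n:ℝ)) := by positivity
      nlinarith
    calc (a + 1 / (10 * n)) ^ (n - 1) ≤ (a * Real.exp (1 / (8 * n))) ^ (n - 1) :=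
          pow_le_pow_left₀ (by positivity) h2 _
      _ = a ^ (n - 1) * Real.exp ((n - 1) * (1 / (8 * n))) := by
          rw [mul_pow, ← Real.exp_nat_mul, hcast]
      _ ≤ a ^ (n - 1) * (6 / 5) := by
          apply mul_le_mul_of_nonneg_left _ (by positivity)
          have h3 : ((n:ℝ) - 1) * (1 / (8 * n)) ≤ 1 / 8 := by
            have : ((n:ℝ) - 1) * (1 / (8 * n)) = 1 / 8 - 1 / (8 * n) := by field_simp
            rw [this]
            have : 0 < 1 / (8 * (n:ℝ)) := by positivity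
            linarith
          have h4 : Real.exp (1 / 8) ≤ 6 / 5 := by
            have h5 : Real.exp (1 / 8) ^ 8 = Real.exp 1 := by
              rw [← Real.exp_nat_mul]; norm_num
            have h6 : Real.exp 1 ≤ (6 / 5 : ℝ) ^ 8 := by
              have := Real.exp_one_lt_d9
              norm_num
              linarith
            rw [← h5] at h6
            exact (pow_le_pow_iff_left₀ (Real.exp_pos _).le (by norm_num) (by norm_num)).mp h6
          exact (Real.exp_le_exp.mpr h3).trans h4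
      _ ≤ 1 / (80 * n ^ 2) := by
          have h3 : a ^ n = a ^ (n - 1) * a := by rw [← pow_succ]; congr 1; omega
          rw [h3] at h
          have h4 : a ^ (n - 1) * (4 / 5) ≤ 1 / (120 * n ^ 2) := by
            refine le_trans ?_ h
            exact mul_le_mul_of_nonneg_left h45 (by positivity)
          have h5 : 1 / (80 * (n:ℝ) ^ 2) = 3 / 2 * (1 / (120 * n ^ 2)) := by
            field_simp; norm_num
          rw [h5]
          linarith
  · have h2 : a + 1 / (10 * n) ≤ Real.exp (-(1 / 6)) := by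
      have h3 : 1 / (10 * (n:ℝ)) ≤ 1 / 10 ^ 7 := by
        apply one_div_le_one_div_of_le (by norm_num)
        linarith
      have h4 := Real.add_one_le_exp (-(1 / 6 : ℝ))
      norm_num at h3 h4 ⊢
      linarith
    calc (a + 1 / (10 * n)) ^ (n - 1) ≤ (Real.exp (-(1 / 6))) ^ (n - 1) :=
          pow_le_pow_left₀ (by positivity) h2 _
      _ = Real.exp (-(((n:ℝ) - 1) / 6)) := by
          rw [← Real.exp_nat_mul, hcast]; congr 1; ring
      _ ≤ 1 / (80 * n ^ 2) := by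
          rw [Real.exp_neg, ← one_div]
          apply one_div_le_one_div_of_le (by positivity)
          have h3 := Real.pow_div_factorial_le_exp (((n:ℝ) - 1) / 6) (by linarith) 4
          have h4 : ((Nat.factorial 4 : ℕ) : ℝ) = 24 := by norm_num [Nat.factorial]
          rw [h4] at h3
          refine le_trans ?_ h3
          have h5 : (n:ℝ) / 7 ≤ ((n:ℝ) - 1) / 6 := by linarith
          have h6 : ((n:ℝ) / 7) ^ 4 ≤ (((n:ℝ) - 1) / 6) ^ 4 :=
            pow_le_pow_left₀ (by positivity) h5 4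
          have h7 : (10:ℝ) ^ 12 ≤ n ^ 2 := by nlinarith
          have h8 : ((n:ℝ) / 7) ^ 4 = n ^ 2 * n ^ 2 / 2401 := by ring
          rw [h8] at h6
          rw [le_div_iff₀ (by norm_num)]
          nlinarith

end Pool.Agent.N228.UC
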