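import Mathlib
import Pool.Agent.N228.UC.Alg

/-! # Classification of the parameters of the unit circle -/

set_option autoImplicit false

open Set N62a1eb23
open Pool.Agent.W747.MB

namespace Pool.Agent.N228.UC

theorem log_ge {n : ℕ} (hn : 10 ^ 6 ≤ n) : 13 ≤ Real.log n := by
  have hnr : (10:ℝ) ^ 6 ≤ n := by exact_mod_cast hn
  have hn0 : (0:ℝ) < n := by linarith
  rw [Real.le_log_iff_exp_le hn0]
  have h9 : Real.exp 13 = (Real.exp 1) ^ 13 := by rw [← Real.exp_nat_mul]; norm_num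
  rw [h9]
  calc (Real.exp 1) ^ 13 ≤ (2.7182818286:ℝ) ^ 13 := by
        gcongr
        exact Real.exp_one_lt_d9.le
    _ ≤ 10 ^ 6 := by norm_num
    _ ≤ n := hnr

theorem log_le {n : ℕ} (hn : 10 ^ 6 ≤ n) : Real.log n ≤ n / 1000 := by
  have hnr : (10:ℝ) ^ 6 ≤ n := by exact_mod_cast hn
  have hn0 : (0:ℝ) < n := by linarith
  have h1 := Real.log_le_sub_one_of_pos (show 0 < (n:ℝ) / 10000 by positivity)
  rw [Real.log_div (by linarith) (by norm_num)] at h1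
  have h2 : Real.log 10000 ≤ 10 := by
    rw [Real.log_le_iff_le_exp (by norm_num)]
    have h9 : Real.exp 10 = (Real.exp 1) ^ 10 := by rw [← Real.exp_nat_mul]; norm_num
    rw [h9]
    calc (10000:ℝ) ≤ (2.7182818283:ℝ) ^ 10 := by norm_num
      _ ≤ _ := by
        gcongr
        exact Real.exp_one_gt_d9.le
  linarith

/-- escape from a lower bound of the square -/
theorem esc {n : ℕ} (hn : 10 ^ 6 ≤ n) {c : ℂ} (hc : ‖c‖ = 1) (j : ℕ)
    (h : 1 + 11 * Real.log n / n ≤ ‖A n c j‖ ^ 2) : c ∉ multibrotSet n := by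
  intro hM
  have hnr : (10:ℝ) ^ 6 ≤ n := by exact_mod_cast hn
  have hn0 : (0:ℝ) < n := by linarith
  have hl := log_ge hn
  have h1 := pow_le_two (le_trans (by norm_num) hn) hc hM j
  have h2 : (‖A n c j‖ ^ 2) ^ (n - 1) ≤ 4 := by
    rw [← pow_mul, mul_comm, pow_mul]
    calc (‖A n c j‖ ^ (n - 1)) ^ 2 ≤ 2 ^ 2 := pow_le_pow_left₀ (by positivity) h1 2
      _ = 4 := by norm_num
  have hpos : 0 ≤ 11 * Real.log n / n := by positivity
  have h3 : (1 + 11 * Real.log n / n) ^ (n - 1) ≤ (‖A n c j‖ ^ 2) ^ (n - 1) :=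
    pow_le_pow_left₀ (by linarith) h _
  have h4 := one_add_mul_le_pow (a := 11 * Real.log n / n) (by linarith) (n - 1)
  have hcast : ((n - 1 : ℕ) : ℝ) = (n : ℝ) - 1 := by
    rw [Nat.cast_sub (by omega), Nat.cast_one]
  rw [hcast] at h4
  have h5 : ((n:ℝ) - 1) * (11 * Real.log n / n) = 11 * Real.log n - 11 * Real.log n / n := by
    field_simp
  rw [h5] at h4
  have h6 : 11 * Real.log n / n ≤ 1 := by
    rw [div_le_one hn0]
    have := log_le hn
    linarith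
  linarith

theorem normsq_add (a r t : ℝ) :
    ‖(a : ℂ) + r * Complex.exp (t * Complex.I)‖ ^ 2 = a ^ 2 + 2 * a * r * Real.cos t + r ^ 2 := by
  rw [← Complex.normSq_eq_norm_sq, Complex.normSq_apply]
  simp only [Complex.add_re, Complex.add_im, Complex.mul_re, Complex.mul_im, Complex.ofReal_re,
    Complex.ofReal_im, Complex.exp_ofReal_mul_I_re, Complex.exp_ofReal_mul_I_im, zero_mul, sub_zero,
    add_zero, zero_add]
  have := Real.sin_sq_add_cos_sq t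
  nlinarith

/-- the first point -/
theorem A1_eq {n : ℕ} (hn : 2 ≤ n) {c : ℂ} {x : ℝ}
    (hx : c ^ (n - 1) = Complex.exp (x * Complex.I)) :
    A n c 1 = (2 * Real.cos (x / 2) : ℝ) * Complex.exp ((x / 2 : ℝ) * Complex.I) := by
  rw [A_one hn, hx]
  have h1 : Complex.exp (x * Complex.I) =
      Complex.exp ((x / 2 : ℝ) * Complex.I) * Complex.exp ((x / 2 : ℝ) * Complex.I) := by
    rw [← Complex.exp_add]; congr 1; push_cast; ring
  have h2 : (1:ℂ) = Complex.exp ((x / 2 : ℝ) * Complex.I) * Complex.exp (-((x / 2 : ℝ) * Complex.I)) := by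
    rw [← Complex.exp_add]; simp
  have h3 : ((2 * Real.cos (x / 2) : ℝ) : ℂ) = Complex.exp ((x / 2 : ℝ) * Complex.I) +
      Complex.exp (-((x / 2 : ℝ) * Complex.I)) := by
    push_cast
    rw [Complex.two_cos]
    ring_nf
  rw [h3]
  conv_lhs => rw [h1, h2]
  ring

theorem A1_norm {n : ℕ} (hn : 2 ≤ n) {c : ℂ} {x : ℝ} (hx0 : 0 ≤ x) (hxp : x ≤ Real.pi)
    (hx : c ^ (n - 1) = Complex.exp (x * Complex.I)) : ‖A n c 1‖ = 2 * Real.cos (x / 2) := by
  rw [A1_eq hn hx, norm_mul, Complex.norm_exp_ofReal_mul_I, mul_one, Complex.norm_real,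
    Real.norm_eq_abs, abs_of_nonneg]
  have := Real.cos_nonneg_of_mem_Icc (x := x / 2) ⟨by linarith [Real.pi_pos], by linarith⟩
  linarith

/-- the second point -/
theorem A2_eq {n : ℕ} (hn : 2 ≤ n) {c : ℂ} {x : ℝ}
    (hx : c ^ (n - 1) = Complex.exp (x * Complex.I)) :
    A n c 2 = 1 + (((2 * Real.cos (x / 2)) ^ n : ℝ) : ℂ) *
      Complex.exp ((((n:ℝ) + 2) / 2 * x : ℝ) * Complex.I) := by
  rw [A_succ hn, A1_eq hn hx, hx, mul_pow, ← Complex.exp_nat_mul]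
  have h1 : Complex.exp (x * Complex.I) * (((2 * Real.cos (x / 2) : ℝ) : ℂ) ^ n *
      Complex.exp ((n:ℂ) * ((x / 2 : ℝ) * Complex.I))) =
      (((2 * Real.cos (x / 2) : ℝ) : ℂ) ^ n) *
      (Complex.exp (x * Complex.I) * Complex.exp ((n:ℂ) * ((x / 2 : ℝ) * Complex.I))) := by ring
  rw [h1, ← Complex.exp_add, Complex.ofReal_pow]
  congr 3
  push_cast; ring

theorem A2_normsq {n : ℕ} (hn : 2 ≤ n) {c : ℂ} {x : ℝ}
    (hx : c ^ (n - 1) = Complex.exp (x * Complex.I)) :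
    ‖A n c 2‖ ^ 2 = 1 + 2 * (2 * Real.cos (x / 2)) ^ n * Real.cos (((n:ℝ) + 2) / 2 * x) +
      ((2 * Real.cos (x / 2)) ^ n) ^ 2 := by
  rw [A2_eq hn hx]
  have := normsq_add 1 ((2 * Real.cos (x / 2)) ^ n) (((n:ℝ) + 2) / 2 * x)
  rw [Complex.ofReal_one] at this
  rw [this]; ring

/-- the binomial remainder -/
theorem binom_rem (q : ℂ) (k : ℕ) :
    ‖(1 + q) ^ k - 1 - k * q‖ ≤ (1 + ‖q‖) ^ k - 1 - k * ‖q‖ := by
  induction k with
  | zero => simp
  | succ k ih =>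
    have h1 : (1 + q) ^ (k + 1) - 1 - ((k + 1 : ℕ) : ℂ) * q =
        (1 + q) * ((1 + q) ^ k - 1 - k * q) + k * q ^ 2 := by push_cast; ring
    have h2 : (1 + ‖q‖) ^ (k + 1) - 1 - ((k + 1 : ℕ) : ℝ) * ‖q‖ =
        (1 + ‖q‖) * ((1 + ‖q‖) ^ k - 1 - k * ‖q‖) + k * ‖q‖ ^ 2 := by push_cast; ring
    rw [h1, h2]
    refine (norm_add_le _ _).trans ?_
    rw [norm_mul, norm_mul, norm_pow, Complex.norm_natCast]
    have h3 : ‖1 + q‖ ≤ 1 + ‖q‖ := by
      have := norm_add_le 1 q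
      rwa [norm_one] at this
    have h4 : ‖1 + q‖ * ‖(1 + q) ^ k - 1 - k * q‖ ≤
        (1 + ‖q‖) * ((1 + ‖q‖) ^ k - 1 - k * ‖q‖) :=
      mul_le_mul h3 ih (norm_nonneg _) (by positivity)
    linarith

theorem binom_rem' {q : ℂ} {n : ℕ} (h : n * ‖q‖ ≤ 1) :
    ‖(1 + q) ^ n - 1 - n * q‖ ≤ (n * ‖q‖) ^ 2 := by
  refine (binom_rem q n).trans ?_
  have h1 : (1 + ‖q‖) ^ n ≤ Real.exp (n * ‖q‖) := by
    rw [Real.exp_nat_mul]
    apply pow_le_pow_left₀ (by positivity)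
    have := Real.add_one_le_exp ‖q‖
    linarith
  have h0 : 0 ≤ n * ‖q‖ := by positivity
  have h2 := Real.abs_exp_sub_one_sub_id_le (x := n * ‖q‖) (by rw [abs_of_nonneg h0]; exact h)
  have h3 := le_abs_self (Real.exp (n * ‖q‖) - 1 - n * ‖q‖)
  linarith

/-- large `ρ`: escape -/
theorem clsE {n : ℕ} (hn : 10 ^ 6 ≤ n) {c : ℂ} (hc : ‖c‖ = 1) {x : ℝ} (hx0 : 0 ≤ x)
    (hxp : x ≤ Real.pi) (hx : c ^ (n - 1) = Complex.exp (x * Complex.I))
    (hρ : 3 ≤ (2 * Real.cos (x / 2)) ^ n) : c ∉ multibrotSet n := by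
  intro hM
  have hn2 : 2 ≤ n := le_trans (by norm_num) hn
  have hnr : (10:ℝ) ^ 6 ≤ n := by exact_mod_cast hn
  have h1 := pow_le_two (le_trans (by norm_num) hn) hc hM 1
  rw [A1_norm hn2 hx0 hxp hx] at h1
  set a := 2 * Real.cos (x / 2) with ha
  have ha0 : 0 ≤ a := by
    have := Real.cos_nonneg_of_mem_Icc (x := x / 2) ⟨by linarith [Real.pi_pos], by linarith⟩
    linarith
  have hcast : ((n - 1 : ℕ) : ℝ) = (n : ℝ) - 1 := by
    rw [Nat.cast_sub (by omega), Nat.cast_one]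
  have h2 : a ≤ 1 + 1 / ((n:ℝ) - 1) := by
    by_contra hh
    push Not at hh
    have h3 : 0 < (n:ℝ) - 1 := by linarith
    have h4 := one_add_mul_le_pow (a := 1 / ((n:ℝ) - 1)) (by
      have : 0 < 1 / ((n:ℝ) - 1) := by positivity
      linarith) (n - 1)
    rw [hcast] at h4
    have h5 : ((n:ℝ) - 1) * (1 / ((n:ℝ) - 1)) = 1 := by field_simp
    rw [h5] at h4
    have h6 : (1 + 1 / ((n:ℝ) - 1)) ^ (n - 1) < a ^ (n - 1) :=
      pow_lt_pow_left₀ hh (by positivity) (by omega)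
    linarith
  have h3 : a ^ n = a ^ (n - 1) * a := by rw [← pow_succ]; congr 1; omega
  have h4 : 1 / ((n:ℝ) - 1) ≤ 1 / 10 := by
    apply one_div_le_one_div_of_le (by norm_num)
    linarith
  rw [h3] at hρ
  nlinarith

/-- very small `ρ`: attracting cycle of period two -/
theorem clsF {n : ℕ} (hn : 10 ^ 6 ≤ n) {c : ℂ} (hc : ‖c‖ = 1) {x : ℝ} (hx0 : 0 ≤ x)
    (hxp : x ≤ Real.pi) (hx : c ^ (n - 1) = Complex.exp (x * Complex.I))
    (hρ : (2 * Real.cos (x / 2)) ^ n ≤ 1 / (120 * n ^ 2)) : c ∈ hyp n := by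
  have hn2 : 2 ≤ n := le_trans (by norm_num) hn
  apply hyp1 hn hc
  rw [A1_norm hn2 hx0 hxp hx]
  exact hρ

theorem a_ge {n : ℕ} (hn : 10 ^ 6 ≤ n) {a : ℝ} (ha : 0 ≤ a)
    (hρ : 1 / (120 * (n:ℝ) ^ 2) ≤ a ^ n) : 1 - 5 / 2 * Real.log n / n ≤ a ∧ 4 / 5 ≤ a := by
  have hnr : (10:ℝ) ^ 6 ≤ n := by exact_mod_cast hn
  have hn0 : (0:ℝ) < n := by linarith
  have hl := log_ge hn
  have hll := log_le hn
  have h1 : 1 - 5 / 2 * Real.log n / n ≤ a := by
    by_contra hh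
    push Not at hh
    have h2 : a ^ n < (Real.exp (-(5 / 2 * Real.log n / n))) ^ n := by
      apply pow_lt_pow_left₀ _ ha (by omega)
      have := Real.add_one_le_exp (-(5 / 2 * Real.log n / n))
      linarith
    rw [← Real.exp_nat_mul] at h2
    have h3 : (n:ℝ) * -(5 / 2 * Real.log n / n) = -(5 / 2 * Real.log n) := by field_simp
    rw [h3] at h2
    have h4 : 1 / (120 * (n:ℝ) ^ 2) < Real.exp (-(5 / 2 * Real.log n)) := lt_of_le_of_lt hρ h2
    have h5 : Real.exp (2 * Real.log n) = (n:ℝ) ^ 2 := by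
      have : 2 * Real.log n = ((2:ℕ):ℝ) * Real.log n := by norm_num
      rw [this, Real.exp_nat_mul, Real.exp_log hn0]
    have h6 : (120:ℝ) ≤ Real.exp (1 / 2 * Real.log n) := by
      have h7 : Real.exp 5 ≤ Real.exp (1 / 2 * Real.log n) := Real.exp_le_exp.mpr (by linarith)
      have h8 : (120:ℝ) ≤ Real.exp 5 := by
        have h9 : Real.exp 5 = (Real.exp 1) ^ 5 := by rw [← Real.exp_nat_mul]; norm_num
        rw [h9]
        calc (120:ℝ) ≤ (2.7182818283:ℝ) ^ 5 := by norm_num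
          _ ≤ _ := by
            gcongr
            exact Real.exp_one_gt_d9.le
      linarith
    have h7 : Real.exp (-(5 / 2 * Real.log n)) * ((n:ℝ) ^ 2 * Real.exp (1 / 2 * Real.log n)) = 1 := by
      rw [← h5, ← Real.exp_add, ← Real.exp_add]
      have : -(5 / 2 * Real.log n) + (2 * Real.log n + 1 / 2 * Real.log n) = 0 := by ring
      rw [this, Real.exp_zero]
    rw [div_lt_iff₀ (by positivity)] at h4
    have h8 := Real.exp_pos (-(5 / 2 * Real.log n))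
    have h9 : (n:ℝ) ^ 2 * 120 ≤ (n:ℝ) ^ 2 * Real.exp (1 / 2 * Real.log n) :=
      mul_le_mul_of_nonneg_left h6 (sq_nonneg _)
    nlinarith
  refine ⟨h1, ?_⟩
  have h2 : 5 / 2 * Real.log n / n ≤ 1 / 5 := by
    rw [div_le_iff₀ hn0]; linarith
  linarith

/-- the intermediate range `B` -/
theorem clsB {n : ℕ} (hn : 10 ^ 6 ≤ n) {c : ℂ} (hc : ‖c‖ = 1) {x : ℝ} (hx0 : 0 ≤ x)
    (hxp : x ≤ Real.pi) (hx : c ^ (n - 1) = Complex.exp (x * Complex.I))
    (hρ : 1 / (120 * (n:ℝ) ^ 2) ≤ (2 * Real.cos (x / 2)) ^ n)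
    (hρ3 : (2 * Real.cos (x / 2)) ^ n ≤ 3) {m : ℝ}
    (hm : (2 * Real.cos (x / 2)) ^ n / 2 + 6 * Real.log n / (n * (2 * Real.cos (x / 2)) ^ n) ≤ m) :
    (m ≤ Real.cos (((n:ℝ) + 2) / 2 * x) → c ∉ multibrotSet n) ∧
    (Real.cos (((n:ℝ) + 2) / 2 * x) ≤ -m → c ∈ hyp n) := by
  have hn2 : 2 ≤ n := le_trans (by norm_num) hn
  have hnr : (10:ℝ) ^ 6 ≤ n := by exact_mod_cast hn
  have hn0 : (0:ℝ) < n := by linarith
  have hl := log_ge hn
  have hA1 := A1_norm hn2 hx0 hxp hx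
  have hA2 := A2_normsq hn2 hx
  set a := 2 * Real.cos (x / 2) with ha
  have ha0 : 0 ≤ a := by rw [← hA1]; exact norm_nonneg _
  set ρ := a ^ n with hρd
  set cb := Real.cos (((n:ℝ) + 2) / 2 * x) with hcb
  have hρ0 : 0 < ρ := lt_of_lt_of_le (by positivity) hρ
  have h6 : 2 * ρ * (6 * Real.log n / (n * ρ)) = 12 * Real.log n / n := by field_simp; ring
  constructor
  · intro h
    apply esc hn hc 2
    rw [hA2]
    have h7 : 6 * Real.log n / (n * ρ) ≤ cb := by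
      have : 0 ≤ ρ / 2 := by positivity
      linarith
    have h8 : 2 * ρ * (6 * Real.log n / (n * ρ)) ≤ 2 * ρ * cb :=
      mul_le_mul_of_nonneg_left h7 (by positivity)
    rw [h6] at h8
    have h9 : 11 * Real.log n / n ≤ 12 * Real.log n / n := by gcongr; norm_num
    nlinarith [sq_nonneg ρ]
  · intro h
    apply hyp2 hn hc
    · rw [hA1]; exact (a_ge hn ha0 hρ).2
    · rw [hA1]; exact hρ3
    · rw [hA2]
      have h7 : cb ≤ -(ρ / 2 + 6 * Real.log n / (n * ρ)) := by linarith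
      have h8 : 2 * ρ * cb ≤ 2 * ρ * (-(ρ / 2 + 6 * Real.log n / (n * ρ))) :=
        mul_le_mul_of_nonneg_left h7 (by positivity)
      have h9 : 2 * ρ * (-(ρ / 2 + 6 * Real.log n / (n * ρ))) = -ρ ^ 2 - 12 * Real.log n / n := by
        rw [← h6]; ring
      linarith

/-- the intermediate range `D` -/
theorem clsD {n : ℕ} (hn : 10 ^ 6 ≤ n) {c : ℂ} (hc : ‖c‖ = 1) {x : ℝ} (hx0 : 0 ≤ x)
    (hxp : x ≤ Real.pi) (hx : c ^ (n - 1) = Complex.exp (x * Complex.I))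
    (hρ : 1 / (120 * (n:ℝ) ^ 2) ≤ (2 * Real.cos (x / 2)) ^ n)
    (hρ1 : n * (2 * Real.cos (x / 2)) ^ n ≤ 1) {m : ℝ}
    (hm : 10 * Real.log n / (n ^ 2 * (2 * Real.cos (x / 2)) ^ n) +
      5 * (n * (2 * Real.cos (x / 2)) ^ n) ≤ m) :
    (m ≤ Real.cos (((n:ℝ) + 3) / 2 * x) → c ∉ multibrotSet n) ∧
    (Real.cos (((n:ℝ) + 3) / 2 * x) ≤ -m → c ∈ hyp n) := by
  have hn2 : 2 ≤ n := le_trans (by norm_num) hn
  have hnr : (10:ℝ) ^ 6 ≤ n := by exact_mod_cast hn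
  have hn0 : (0:ℝ) < n := by linarith
  have hl := log_ge hn
  have hA1 := A1_norm hn2 hx0 hxp hx
  have hA1e := A1_eq hn2 hx
  have hA2e := A2_eq hn2 hx
  set a := 2 * Real.cos (x / 2) with ha
  have ha0 : 0 ≤ a := by rw [← hA1]; exact norm_nonneg _
  set ρ := a ^ n with hρd
  set cg := Real.cos (((n:ℝ) + 3) / 2 * x) with hcg
  have hρ0 : 0 < ρ := lt_of_lt_of_le (by positivity) hρ
  obtain ⟨ha1, ha45⟩ := a_ge hn ha0 hρ
  have hρ1' : ρ ≤ 1 / 10 ^ 6 := by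
    rw [le_div_iff₀ (by norm_num)]
    nlinarith
  have ha_le : a ≤ 1 := by
    by_contra hh
    push Not at hh
    have : 1 ≤ a ^ n := one_le_pow₀ hh.le
    linarith
  set q : ℂ := (ρ : ℂ) * Complex.exp ((((n:ℝ) + 2) / 2 * x : ℝ) * Complex.I) with hq
  have hqn : ‖q‖ = ρ := by
    rw [hq, norm_mul, Complex.norm_exp_ofReal_mul_I, mul_one, Complex.norm_real, Real.norm_eq_abs,
      abs_of_pos hρ0]
  have hE := binom_rem' (q := q) (n := n) (by rw [hqn]; exact hρ1)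
  set E : ℂ := (1 + q) ^ n - 1 - n * q with hEd
  rw [hqn] at hE
  set t := n * ρ with ht
  have ht0 : 0 < t := by positivity
  -- the third point
  have hA3 : A n c 3 = Complex.exp ((x / 2 : ℝ) * Complex.I) *
      (((a : ℝ) : ℂ) + (t : ℝ) * Complex.exp (((((n:ℝ) + 3) / 2 * x : ℝ)) * Complex.I)) +
      Complex.exp (x * Complex.I) * E := by
    have h1 : A n c 3 = A n c 1 + Complex.exp (x * Complex.I) * (n * q) +
        Complex.exp (x * Complex.I) * E := by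
      rw [A_succ hn2 c 2, hA2e, hx, A_one hn2, hx, hEd]
      ring
    rw [h1, hA1e, hq]
    have h2 : Complex.exp (x * Complex.I) *
        Complex.exp ((((n:ℝ) + 2) / 2 * x : ℝ) * Complex.I) =
        Complex.exp ((x / 2 : ℝ) * Complex.I) *
        Complex.exp (((((n:ℝ) + 3) / 2 * x : ℝ)) * Complex.I) := by
      rw [← Complex.exp_add, ← Complex.exp_add]
      congr 1
      push_cast; ring
    have h3 : Complex.exp (x * Complex.I) * ((n:ℂ) * ((ρ:ℂ) *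
        Complex.exp ((((n:ℝ) + 2) / 2 * x : ℝ) * Complex.I))) =
        ((t:ℝ):ℂ) * (Complex.exp (x * Complex.I) *
        Complex.exp ((((n:ℝ) + 2) / 2 * x : ℝ) * Complex.I)) := by
      rw [ht]; push_cast; ring
    rw [h3, h2]
    ring
  set Z : ℂ := ((a : ℝ) : ℂ) + (t : ℝ) * Complex.exp (((((n:ℝ) + 3) / 2 * x : ℝ)) * Complex.I)
    with hZ
  have hZsq : ‖Z‖ ^ 2 = a ^ 2 + 2 * a * t * cg + t ^ 2 := normsq_add a t _
  have hZn : ‖Z‖ ≤ 2 := by
    refine (norm_add_le _ _).trans ?_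
    rw [norm_mul, Complex.norm_exp_ofReal_mul_I, mul_one, Complex.norm_real, Complex.norm_real,
      Real.norm_eq_abs, Real.norm_eq_abs, abs_of_nonneg ha0, abs_of_pos ht0]
    linarith
  have hup : ‖A n c 3‖ ≤ ‖Z‖ + t ^ 2 := by
    rw [hA3]
    refine (norm_add_le _ _).trans ?_
    rw [norm_mul, norm_mul, Complex.norm_exp_ofReal_mul_I, Complex.norm_exp_ofReal_mul_I, one_mul,
      one_mul]
    linarith
  have hlo : ‖Z‖ - t ^ 2 ≤ ‖A n c 3‖ := by
    have h1 : Complex.exp ((x / 2 : ℝ) * Complex.I) * Z = A n c 3 - Complex.exp (x * Complex.I) * E := by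
      rw [hA3]; ring
    have h2 : ‖Z‖ ≤ ‖A n c 3‖ + ‖E‖ := by
      calc ‖Z‖ = ‖Complex.exp ((x / 2 : ℝ) * Complex.I) * Z‖ := by
            rw [norm_mul, Complex.norm_exp_ofReal_mul_I, one_mul]
        _ = ‖A n c 3 - Complex.exp (x * Complex.I) * E‖ := by rw [h1]
        _ ≤ ‖A n c 3‖ + ‖Complex.exp (x * Complex.I) * E‖ := norm_sub_le _ _
        _ = _ := by rw [norm_mul, Complex.norm_exp_ofReal_mul_I, one_mul]
    linarith
  have hup2 : ‖A n c 3‖ ^ 2 ≤ a ^ 2 + 2 * a * t * cg + 6 * t ^ 2 := by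
    have h1 : ‖A n c 3‖ ^ 2 ≤ (‖Z‖ + t ^ 2) ^ 2 := pow_le_pow_left₀ (norm_nonneg _) hup 2
    have h2 : (‖Z‖ + t ^ 2) ^ 2 = ‖Z‖ ^ 2 + 2 * ‖Z‖ * t ^ 2 + t ^ 2 * t ^ 2 := by ring
    have h3 : 2 * ‖Z‖ * t ^ 2 ≤ 4 * t ^ 2 := by nlinarith [sq_nonneg t]
    have h4 : t ^ 2 * t ^ 2 ≤ 1 * t ^ 2 := by
      apply mul_le_mul_of_nonneg_right _ (sq_nonneg t)
      nlinarith
    rw [h2, hZsq] at h1
    linarith
  have hlo2 : a ^ 2 + 2 * a * t * cg - 3 * t ^ 2 ≤ ‖A n c 3‖ ^ 2 := by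
    have h1 : ‖Z‖ ^ 2 - 4 * t ^ 2 ≤ ‖A n c 3‖ ^ 2 := by
      rcases le_or_gt (‖Z‖) (t ^ 2) with h | h
      · have : ‖Z‖ ^ 2 ≤ 2 * t ^ 2 := by nlinarith [norm_nonneg Z]
        nlinarith [sq_nonneg ‖A n c 3‖, sq_nonneg t]
      · have h2 : (‖Z‖ - t ^ 2) ^ 2 ≤ ‖A n c 3‖ ^ 2 := pow_le_pow_left₀ (by linarith) hlo 2
        nlinarith [sq_nonneg t, sq_nonneg (t ^ 2)]
    rw [hZsq] at h1
    linarith
  have hk : 2 * (4 / 5) * t * (10 * Real.log n / (n ^ 2 * ρ)) = 16 * Real.log n / n := by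
    rw [ht]; field_simp; ring
  have hm0 : 0 ≤ 10 * Real.log n / (n ^ 2 * ρ) + 5 * t := by positivity
  constructor
  · intro h
    apply esc hn hc 3
    refine le_trans ?_ hlo2
    have h7 : 10 * Real.log n / (n ^ 2 * ρ) + 5 * t ≤ cg := hm.trans h
    have h8 : 2 * a * t * (10 * Real.log n / (n ^ 2 * ρ) + 5 * t) ≤ 2 * a * t * cg :=
      mul_le_mul_of_nonneg_left h7 (by positivity)
    have h9 : 2 * (4 / 5) * t * (10 * Real.log n / (n ^ 2 * ρ) + 5 * t) ≤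
        2 * a * t * (10 * Real.log n / (n ^ 2 * ρ) + 5 * t) := by
      apply mul_le_mul_of_nonneg_right _ hm0
      nlinarith
    have h10 : 2 * (4 / 5) * t * (10 * Real.log n / (n ^ 2 * ρ) + 5 * t) =
        16 * Real.log n / n + 8 * t ^ 2 := by rw [← hk]; ring
    have h11 : 1 - 5 * Real.log n / n ≤ a ^ 2 := by
      have h12 : 5 * Real.log n / n = 2 * (5 / 2 * Real.log n / n) := by ring
      have h13 : 0 ≤ 5 / 2 * Real.log n / n := by positivity
      rw [h12]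
      nlinarith [sq_nonneg (5 / 2 * Real.log n / n), sq_nonneg (a - 1)]
    have h12 : 16 * Real.log n / n = 5 * Real.log n / n + 11 * Real.log n / n := by ring
    nlinarith [sq_nonneg t]
  · intro h
    have hq1 : ‖q‖ ≤ 1 / 10 := by rw [hqn]; linarith
    have hA2n : A n c 2 = 1 + q := hA2e
    apply hyp3 hn hc
    · rw [hA1]; exact ha45
    · rw [hA1, ← hρd]; linarith
    · rw [hA2n]
      have := norm_sub_norm_le (1:ℂ) (-q)
      rw [sub_neg_eq_add, norm_neg, norm_one] at this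
      linarith
    · rw [hA2n]
      have h1 : ‖1 + q‖ ≤ 1 + ρ := by
        have := norm_add_le 1 q
        rwa [norm_one, hqn] at this
      calc ‖1 + q‖ ^ n ≤ (Real.exp ρ) ^ n := by
            apply pow_le_pow_left₀ (norm_nonneg _)
            have := Real.add_one_le_exp ρ
            linarith
        _ = Real.exp t := by rw [← Real.exp_nat_mul]
        _ ≤ Real.exp 1 := Real.exp_le_exp.mpr hρ1
        _ ≤ 3 := by
            have := Real.exp_one_lt_d9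
            linarith
    · refine hup2.trans ?_
      have h7 : cg ≤ -(10 * Real.log n / (n ^ 2 * ρ) + 5 * t) := by linarith
      have h8 : 2 * a * t * cg ≤ 2 * a * t * (-(10 * Real.log n / (n ^ 2 * ρ) + 5 * t)) :=
        mul_le_mul_of_nonneg_left h7 (by positivity)
      have h9 : 2 * (4 / 5) * t * (10 * Real.log n / (n ^ 2 * ρ) + 5 * t) ≤
          2 * a * t * (10 * Real.log n / (n ^ 2 * ρ) + 5 * t) := by
        apply mul_le_mul_of_nonneg_right _ hm0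
        nlinarith
      have h10 : 2 * (4 / 5) * t * (10 * Real.log n / (n ^ 2 * ρ) + 5 * t) =
          16 * Real.log n / n + 8 * t ^ 2 := by rw [← hk]; ring
      have h11 : a ^ 2 ≤ 1 := by nlinarith
      have h12 : 16 * Real.log n / n = 12 * Real.log n / n + 4 * Real.log n / n := by ring
      have h13 : 0 ≤ 4 * Real.log n / n := by positivity
      nlinarith [sq_nonneg t]

end Pool.Agent.N228.UC
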