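import Mathlib

/-! # Sublevel sets of `cos (ω x)` on short intervals -/

set_option autoImplicit false

open MeasureTheory Set

namespace Pool.Agent.N228.UC

/-- `|cos (ω x)| ≤ ε` on an interval `[s, t]`. -/
theorem cos_sub {ω s t ε : ℝ} (hω : 0 < ω) (hst : s ≤ t) (hε : 0 ≤ ε) :
    volume {x | x ∈ Icc s t ∧ |Real.cos (ω * x)| ≤ ε} ≤
      ENNReal.ofReal ((ω * (t - s) / Real.pi + 2) * (Real.pi * ε / ω)) := by
  have hpi := Real.pi_pos
  set lo : ℤ := ⌈(ω * s - Real.pi / 2) / Real.pi - 1 / 2⌉ with hlo
  set hi : ℤ := ⌊(ω * t - Real.pi / 2) / Real.pi + 1 / 2⌋ with hhi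
  set F := Finset.Icc lo hi with hF
  have hcov : {x | x ∈ Icc s t ∧ |Real.cos (ω * x)| ≤ ε} ⊆
      ⋃ j ∈ F, Metric.closedBall ((Real.pi / 2 + Real.pi * j) / ω) (Real.pi * ε / (2 * ω)) := by
    rintro x ⟨⟨hx1, hx2⟩, hx3⟩
    set z := ω * x - Real.pi / 2 with hz
    set j : ℤ := round (z / Real.pi) with hj
    have h1 : |z / Real.pi - j| ≤ 1 / 2 := abs_sub_round _
    have h2 : |z - j * Real.pi| ≤ Real.pi / 2 := by
      have h3 : z - j * Real.pi = (z / Real.pi - j) * Real.pi := by field_simp
      rw [h3, abs_mul, abs_of_pos hpi]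
      nlinarith
    have h3 : |Real.cos (ω * x)| = |Real.sin (z - j * Real.pi)| := by
      rw [Real.sin_sub_int_mul_pi, abs_mul, abs_zpow]
      simp only [abs_neg, abs_one, one_zpow, one_mul]
      rw [hz, Real.sin_sub_pi_div_two, abs_neg]
    have h4 : 2 / Real.pi * |z - j * Real.pi| ≤ |Real.sin (z - j * Real.pi)| :=
      Real.mul_abs_le_abs_sin h2
    have h5 : |z - j * Real.pi| ≤ Real.pi * ε / 2 := by
      calc |z - j * Real.pi| = (2 / Real.pi * |z - j * Real.pi|) * (Real.pi / 2) := by field_simp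
        _ ≤ ε * (Real.pi / 2) := by
          apply mul_le_mul_of_nonneg_right _ (by positivity)
          rw [h3] at hx3
          exact h4.trans hx3
        _ = _ := by ring
    rw [abs_le] at h1
    refine mem_biUnion (x := j) ?_ ?_
    · simp only [hF, Finset.coe_Icc, mem_Icc]
      constructor
      · rw [hlo, Int.ceil_le]
        have : (ω * s - Real.pi / 2) / Real.pi ≤ z / Real.pi := by
          apply div_le_div_of_nonneg_right _ hpi.le
          rw [hz]; nlinarith
        linarith [h1.2]
      · rw [hhi, Int.le_floor]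
        have : z / Real.pi ≤ (ω * t - Real.pi / 2) / Real.pi := by
          apply div_le_div_of_nonneg_right _ hpi.le
          rw [hz]; nlinarith
        linarith [h1.1]
    · rw [Metric.mem_closedBall, Real.dist_eq]
      have h6 : x - (Real.pi / 2 + Real.pi * j) / ω = (z - j * Real.pi) / ω := by
        rw [hz]; field_simp; ring
      rw [h6, abs_div, abs_of_pos hω]
      calc |z - j * Real.pi| / ω ≤ (Real.pi * ε / 2) / ω := by gcongr
        _ = _ := by field_simp
  have hcard : (F.card : ℝ) ≤ ω * (t - s) / Real.pi + 2 := by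
    rw [hF, Int.card_Icc]
    have h1 : (((hi + 1 - lo).toNat : ℕ) : ℝ) = ((max (hi + 1 - lo) 0 : ℤ) : ℝ) := by
      rw [← Int.toNat_eq_max]; norm_cast
    rw [h1]
    push_cast
    have h2 : (hi : ℝ) ≤ (ω * t - Real.pi / 2) / Real.pi + 1 / 2 := Int.floor_le _
    have h3 : (ω * s - Real.pi / 2) / Real.pi - 1 / 2 ≤ (lo : ℝ) := Int.le_ceil _
    apply max_le
    · have h4 : ω * (t - s) / Real.pi = (ω * t - Real.pi / 2) / Real.pi -
          (ω * s - Real.pi / 2) / Real.pi := by ring
      rw [h4]; linarith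
    · have : 0 ≤ ω * (t - s) / Real.pi := by
        apply div_nonneg _ hpi.le
        nlinarith
      linarith
  calc volume {x | x ∈ Icc s t ∧ |Real.cos (ω * x)| ≤ ε}
      ≤ volume (⋃ j ∈ F, Metric.closedBall ((Real.pi / 2 + Real.pi * j) / ω)
          (Real.pi * ε / (2 * ω))) := measure_mono hcov
    _ ≤ ∑ j ∈ F, volume (Metric.closedBall ((Real.pi / 2 + Real.pi * j) / ω)
          (Real.pi * ε / (2 * ω))) := measure_biUnion_finset_le _ _
    _ = ∑ j ∈ F, ENNReal.ofReal (2 * (Real.pi * ε / (2 * ω))) := by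
        simp only [Real.volume_closedBall]
    _ = ENNReal.ofReal (F.card * (2 * (Real.pi * ε / (2 * ω)))) := by
        rw [Finset.sum_const, nsmul_eq_mul, ← ENNReal.ofReal_natCast,
          ← ENNReal.ofReal_mul (by positivity)]
    _ ≤ _ := by
        apply ENNReal.ofReal_le_ofReal
        have h1 : 2 * (Real.pi * ε / (2 * ω)) = Real.pi * ε / ω := by field_simp
        rw [h1]
        apply mul_le_mul_of_nonneg_right hcard
        positivity

/-- the zeros of `cos (ω x)` form a null set -/
theorem cos_null {ω s t : ℝ} (hω : 0 < ω) (hst : s ≤ t) :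
    volume {x | x ∈ Icc s t ∧ Real.cos (ω * x) = 0} = 0 := by
  have h := cos_sub hω hst le_rfl
  simp only [mul_zero, zero_div, ENNReal.ofReal_zero, nonpos_iff_eq_zero] at h
  refine measure_mono_null ?_ h
  rintro x ⟨h1, h2⟩
  exact ⟨h1, by rw [h2]; simp⟩

/-- `cos (ω x) ≤ 0` on about half of the interval `[s, t]`. -/
theorem cos_half {ω s t : ℝ} (hω : 0 < ω) (hst : s ≤ t) :
    volume {x | x ∈ Icc s t ∧ Real.cos (ω * x) ≤ 0} ≤
      ENNReal.ofReal ((t - s + Real.pi / ω) / 2) ∧
    volume {x | x ∈ Icc s t ∧ 0 ≤ Real.cos (ω * x)} ≤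
      ENNReal.ofReal ((t - s + Real.pi / ω) / 2) := by
  have hpi := Real.pi_pos
  set p := Real.pi / ω with hp
  have hp0 : 0 < p := by positivity
  have hshift : ∀ x, Real.cos (ω * (x + p)) = - Real.cos (ω * x) := by
    intro x
    have : ω * (x + p) = ω * x + Real.pi := by rw [hp]; field_simp
    rw [this, Real.cos_add_pi]
  set N := {x | x ∈ Icc s t ∧ Real.cos (ω * x) ≤ 0} with hN
  set P := {x | x ∈ Icc s t ∧ 0 ≤ Real.cos (ω * x)} with hP
  have hcm : Measurable fun x : ℝ => Real.cos (ω * x) := by fun_prop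
  have hNm : MeasurableSet N :=
    measurableSet_Icc.inter (measurableSet_le hcm measurable_const)
  have hPm : MeasurableSet P :=
    measurableSet_Icc.inter (measurableSet_le measurable_const hcm)
  have hNP : volume N + volume P = ENNReal.ofReal (t - s) := by
    have h1 : N ∪ P = Icc s t := by
      ext x
      simp only [hN, hP, mem_union, Set.mem_ofPred_eq]
      constructor
      · rintro (h | h) <;> exact h.1
      · intro h
        rcases le_total (Real.cos (ω * x)) 0 with h2 | h2
        · exact Or.inl ⟨h, h2⟩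
        · exact Or.inr ⟨h, h2⟩
    have h2 : volume (N ∩ P) = 0 := by
      refine measure_mono_null ?_ (cos_null hω hst)
      rintro x ⟨h3, h4⟩
      exact ⟨h3.1, le_antisymm h3.2 h4.2⟩
    have h3 := measure_union_add_inter (μ := volume) N hPm
    rw [h2, add_zero, h1, Real.volume_Icc] at h3
    exact h3.symm
  -- translation
  have key : ∀ (A B : Set ℝ), A ⊆ Icc s t → (∀ x ∈ A, x + p ∈ Icc s t → x + p ∈ B) →
      volume A ≤ volume B + ENNReal.ofReal p := by
    intro A B hA hAB
    have h1 : (fun x => x + (-p)) ⁻¹' A ⊆ B ∪ Ioc t (t + p) := by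
      intro x hx
      have hx' : x + (-p) ∈ A := hx
      have h2 := hA hx'
      have h3 : x + (-p) + p = x := by ring
      by_cases h4 : x ≤ t
      · left
        have := hAB _ hx'
        rw [h3] at this
        apply this
        exact ⟨by linarith [h2.1], h4⟩
      · right
        exact ⟨by linarith, by linarith [h2.2]⟩
    have h2 : volume ((fun x => x + (-p)) ⁻¹' A) = volume A := measure_preimage_add_right _ _ _
    rw [← h2]
    refine (measure_mono h1).trans ((measure_union_le _ _).trans ?_)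
    rw [Real.volume_Ioc]
    have : t + p - t = p := by ring
    rw [this]
  have hNfin : volume N ≠ ⊤ := by
    have : volume N ≤ ENNReal.ofReal (t - s) := by rw [← hNP]; exact le_self_add
    exact ne_top_of_le_ne_top ENNReal.ofReal_ne_top this
  have hPfin : volume P ≠ ⊤ := by
    have : volume P ≤ ENNReal.ofReal (t - s) := by rw [← hNP]; exact le_add_self
    exact ne_top_of_le_ne_top ENNReal.ofReal_ne_top this
  have h1 : volume N ≤ volume P + ENNReal.ofReal p := by
    apply key N P (fun x hx => hx.1)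
    intro x hx hx2
    refine ⟨hx2, ?_⟩
    rw [hshift]; linarith [hx.2]
  have h2 : volume P ≤ volume N + ENNReal.ofReal p := by
    apply key P N (fun x hx => hx.1)
    intro x hx hx2
    refine ⟨hx2, ?_⟩
    rw [hshift]; linarith [hx.2]
  have e1 : volume N = ENNReal.ofReal (volume N).toReal := (ENNReal.ofReal_toReal hNfin).symm
  have e2 : volume P = ENNReal.ofReal (volume P).toReal := (ENNReal.ofReal_toReal hPfin).symm
  have n1 : 0 ≤ (volume N).toReal := ENNReal.toReal_nonneg
  have n2 : 0 ≤ (volume P).toReal := ENNReal.toReal_nonneg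
  rw [e1, e2, ← ENNReal.ofReal_add n1 n2] at hNP
  rw [e1, e2, ← ENNReal.ofReal_add n2 hp0.le, ENNReal.ofReal_le_ofReal_iff (by positivity)] at h1
  rw [e1, e2, ← ENNReal.ofReal_add n1 hp0.le, ENNReal.ofReal_le_ofReal_iff (by positivity)] at h2
  rw [ENNReal.ofReal_eq_ofReal_iff (by positivity) (by linarith)] at hNP
  constructor
  · rw [e1]
    apply ENNReal.ofReal_le_ofReal
    linarith
  · rw [e2]
    apply ENNReal.ofReal_le_ofReal
    linarith

end Pool.Agent.N228.UC
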