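import Mathlib
import Pool.Agent.N228.UC.Cls
import Pool.Agent.N228.UC.Trig

/-! # Positions on the circle -/

set_option autoImplicit false

open Set MeasureTheory

namespace Pool.Agent.N228.UC

/-- the point `x` of `[0, π]` with `|1 + exp (i x)| ^ n = exp (-y)` -/
noncomputable def pos (n : ℕ) (y : ℝ) : ℝ := 2 * Real.arccos (Real.exp (-(y / n)) / 2)

theorem pos_mem (n : ℕ) (y : ℝ) : 0 ≤ pos n y ∧ pos n y ≤ Real.pi := by
  constructor
  · unfold pos
    have := Real.arccos_nonneg (Real.exp (-(y / n)) / 2)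
    linarith
  · unfold pos
    have h : Real.arccos (Real.exp (-(y / n)) / 2) ≤ Real.pi / 2 := by
      rw [Real.arccos_le_pi_div_two]
      positivity
    linarith

theorem cos_pos {n : ℕ} {y : ℝ} (h : Real.exp (-(y / n)) ≤ 2) :
    Real.cos (pos n y / 2) = Real.exp (-(y / n)) / 2 := by
  unfold pos
  rw [mul_div_cancel_left₀ _ (two_ne_zero)]
  apply Real.cos_arccos
  · have := Real.exp_pos (-(y / n)); linarith
  · linarith

theorem le_pos_iff {n : ℕ} (hn : 1 ≤ n) {x y : ℝ} (hx0 : 0 ≤ x) (hxp : x ≤ Real.pi)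
    (h : Real.exp (-(y / n)) ≤ 2) :
    x ≤ pos n y ↔ Real.exp (-y) ≤ (2 * Real.cos (x / 2)) ^ n := by
  have hn0 : (0:ℝ) < n := by exact_mod_cast hn
  have hcos := Real.cos_nonneg_of_mem_Icc (x := x / 2) ⟨by linarith [Real.pi_pos], by linarith⟩
  have hexp : Real.exp (-y) = (Real.exp (-(y / n))) ^ n := by
    rw [← Real.exp_nat_mul]; congr 1; field_simp
  obtain ⟨hp0, hpp⟩ := pos_mem n y
  rw [hexp, pow_le_pow_iff_left₀ (Real.exp_pos _).le (by linarith) (by omega)]
  constructor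
  · intro hx
    have h1 := Real.cos_le_cos_of_nonneg_of_le_pi (x := x / 2) (y := pos n y / 2) (by linarith)
      (by linarith) (by linarith)
    rw [cos_pos h] at h1
    linarith
  · intro hx
    by_contra hcon
    push Not at hcon
    have h1 := Real.cos_lt_cos_of_nonneg_of_le_pi (x := pos n y / 2) (y := x / 2) (by linarith)
      (by linarith) (by linarith)
    rw [cos_pos h] at h1
    linarith

theorem exp_small {n : ℕ} (hn : 10 ^ 6 ≤ n) {y : ℝ} (hy : -3 ≤ y) :
    Real.exp (-(y / n)) ≤ 11 / 10 := by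
  have hnr : (10:ℝ) ^ 6 ≤ n := by exact_mod_cast hn
  have hn0 : (0:ℝ) < n := by linarith
  have h1 : -(y / n) ≤ 1 / 11 := by
    rw [← neg_div, div_le_iff₀ hn0]
    linarith
  refine (Real.exp_le_exp.mpr h1).trans ?_
  have h2 := Real.exp_bound_div_one_sub_of_interval (x := (1/11:ℝ)) (by norm_num) (by norm_num)
  norm_num at h2 ⊢
  linarith

/-- `pos` is monotone and Lipschitz -/
theorem pos_lip {n : ℕ} (hn : 10 ^ 6 ≤ n) {y y' : ℝ} (hy : -3 ≤ y) (hyy : y ≤ y') :
    pos n y ≤ pos n y' ∧ pos n y' - pos n y ≤ 3 * (y' - y) / n := by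
  have hnr : (10:ℝ) ^ 6 ≤ n := by exact_mod_cast hn
  have hn0 : (0:ℝ) < n := by linarith
  have hpi := Real.pi_pos
  have h1 := exp_small hn hy
  have h2 := exp_small hn (hy.trans hyy)
  have hmono : Real.exp (-(y' / n)) ≤ Real.exp (-(y / n)) := by
    apply Real.exp_le_exp.mpr
    have : y / n ≤ y' / n := div_le_div_of_nonneg_right hyy hn0.le
    linarith
  obtain ⟨hp0, hpp⟩ := pos_mem n y
  obtain ⟨hq0, hqp⟩ := pos_mem n y'
  have hle : pos n y ≤ pos n y' := by
    unfold pos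
    have := Real.arccos_le_arccos (x := Real.exp (-(y' / n)) / 2) (y := Real.exp (-(y / n)) / 2)
      (by linarith)
    linarith
  refine ⟨hle, ?_⟩
  have c1 := cos_pos (n := n) (y := y) (by linarith)
  have c2 := cos_pos (n := n) (y := y') (by linarith)
  set x := pos n y with hx
  set x' := pos n y' with hx'
  -- the difference of cosines
  have h3 : Real.cos (x / 2) - Real.cos (x' / 2) =
      2 * Real.sin ((x + x') / 4) * Real.sin ((x' - x) / 4) := by
    rw [Real.cos_sub_cos]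
    have e1 : (x / 2 + x' / 2) / 2 = (x + x') / 4 := by ring
    have e2 : (x / 2 - x' / 2) / 2 = -((x' - x) / 4) := by ring
    rw [e1, e2, Real.sin_neg]; ring
  have h4 : Real.cos (x / 2) - Real.cos (x' / 2) ≤ 11 / 20 * ((y' - y) / n) := by
    rw [c1, c2]
    have h5 : Real.exp (-(y' / n)) = Real.exp (-(y / n)) * Real.exp (-((y' - y) / n)) := by
      rw [← Real.exp_add]; congr 1; ring
    have h6 := Real.add_one_le_exp (-((y' - y) / n))
    have h7 : 0 ≤ (y' - y) / n := div_nonneg (by linarith) hn0.le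
    rw [h5]
    nlinarith [Real.exp_pos (-(y / n))]
  have h5 : 4 / 5 ≤ Real.sin ((x + x') / 4) := by
    have h6 : Real.sin (x / 2) ≤ Real.sin ((x + x') / 4) :=
      Real.sin_le_sin_of_le_of_le_pi_div_two (by linarith) (by linarith) (by linarith)
    have h7 : 4 / 5 ≤ Real.sin (x / 2) := by
      have h8 := Real.sin_sq_add_cos_sq (x / 2)
      have h9 : 0 ≤ Real.sin (x / 2) := Real.sin_nonneg_of_nonneg_of_le_pi (by linarith) (by linarith)
      have h10 : Real.cos (x / 2) ≤ 11 / 20 := by rw [c1]; linarith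
      have h11 : 0 ≤ Real.cos (x / 2) := by rw [c1]; positivity
      nlinarith
    linarith
  have h6 : 2 / Real.pi * ((x' - x) / 4) ≤ Real.sin ((x' - x) / 4) :=
    Real.mul_le_sin (by linarith) (by linarith)
  have h7 : 0 ≤ 2 / Real.pi * ((x' - x) / 4) := by
    apply mul_nonneg (by positivity)
    linarith
  have h8 : 2 * (4 / 5) * (2 / Real.pi * ((x' - x) / 4)) ≤ 11 / 20 * ((y' - y) / n) := by
    rw [h3] at h4
    refine le_trans ?_ h4
    nlinarith
  have h9 : 2 * (4 / 5) * (2 / Real.pi * ((x' - x) / 4)) = 4 / 5 * (x' - x) / Real.pi := by ring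
  rw [h9, div_le_iff₀ hpi] at h8
  have hpi2 : Real.pi < 3.15 := Real.pi_lt_d2
  have h10 : 0 ≤ (y' - y) / n := div_nonneg (by linarith) hn0.le
  have h11 : 3 * (y' - y) / n = 3 * ((y' - y) / n) := by ring
  rw [h11]
  nlinarith

theorem pos_zero (n : ℕ) : pos n 0 = 2 * Real.pi / 3 := by
  unfold pos
  have h1 : Real.exp (-((0:ℝ) / n)) / 2 = 1 / 2 := by simp
  rw [h1]
  have h2 : Real.arccos (1 / 2) = Real.pi / 3 := by
    rw [← Real.cos_pi_div_three]
    apply Real.arccos_cos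
    · positivity
    · linarith [Real.pi_pos]
  rw [h2]; ring

/-- asymptotics of the position at `y = 2 log n` -/
theorem pos_asym {n : ℕ} (hn : 10 ^ 6 ≤ n) :
    |pos n (2 * Real.log n) - (2 * Real.pi / 3 + 4 / √3 * Real.log n / n)| ≤ 4 / n := by
  have hnr : (10:ℝ) ^ 6 ≤ n := by exact_mod_cast hn
  have hn0 : (0:ℝ) < n := by linarith
  have hpi := Real.pi_pos
  have hl := log_ge hn
  set ℓ := Real.log n with hℓ
  have hexp : Real.exp ℓ = n := Real.exp_log hn0
  -- `ℓ ^ 2 ≤ n / 100`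
  have hl2 : ℓ ^ 2 ≤ n / 100 := by
    have h := Real.pow_div_factorial_le_exp ℓ (by linarith) 6
    rw [hexp] at h
    have h5 : ((Nat.factorial 6 : ℕ) : ℝ) = 720 := by norm_num [Nat.factorial]
    rw [h5] at h
    have h6 : (28561:ℝ) * ℓ ^ 2 ≤ ℓ ^ 6 := by
      have h7 : (13:ℝ) ^ 4 ≤ ℓ ^ 4 := pow_le_pow_left₀ (by norm_num) hl 4
      have h8 : ℓ ^ 6 = ℓ ^ 4 * ℓ ^ 2 := by ring
      rw [h8]
      nlinarith [sq_nonneg ℓ]
    by_contra hh
    push Not at hh
    -- use a stronger bound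
    have h9 := Real.pow_div_factorial_le_exp ℓ (by linarith) 10
    rw [hexp] at h9
    have h10 : ((Nat.factorial 10 : ℕ) : ℝ) = 3628800 := by norm_num [Nat.factorial]
    rw [h10] at h9
    have h11 : (815730721:ℝ) * ℓ ^ 2 ≤ ℓ ^ 10 := by
      have h7 : (13:ℝ) ^ 8 ≤ ℓ ^ 8 := pow_le_pow_left₀ (by norm_num) hl 8
      have h8 : ℓ ^ 10 = ℓ ^ 8 * ℓ ^ 2 := by ring
      rw [h8]
      nlinarith [sq_nonneg ℓ]
    have h12 : ℓ ^ 10 ≤ 3628800 * n := by
      rw [div_le_iff₀ (by norm_num)] at h9; linarith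
    nlinarith
  have hq0 : 0 ≤ ℓ / n := by positivity
  have hq2 : (ℓ / n) ^ 2 ≤ 1 / (100 * n) := by
    rw [div_pow, div_le_div_iff₀ (by positivity) (by positivity)]
    nlinarith
  have hq1 : ℓ / n ≤ 1 / 1000 := by
    rw [div_le_iff₀ hn0]
    have := log_le hn
    linarith
  obtain ⟨hm, hL⟩ := pos_lip hn (y := 0) (y' := 2 * ℓ) (by norm_num) (by linarith)
  rw [pos_zero] at hm hL
  set δ := pos n (2 * ℓ) / 2 - Real.pi / 3 with hδ
  have hδ0 : 0 ≤ δ := by rw [hδ]; linarith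
  have hδ1 : δ ≤ 3 * (ℓ / n) := by
    have : 3 * (2 * ℓ - 0) / n = 6 * (ℓ / n) := by ring
    rw [this] at hL
    rw [hδ]; linarith
  have hcos := cos_pos (n := n) (y := 2 * ℓ) (by
    have := exp_small hn (y := 2 * ℓ) (by linarith); linarith)
  have h1 : pos n (2 * ℓ) / 2 = Real.pi / 3 + δ := by rw [hδ]; ring
  rw [h1, Real.cos_add, Real.cos_pi_div_three, Real.sin_pi_div_three] at hcos
  -- `√3 sin δ = cos δ - exp (-2ℓ/n)`
  have h2 : √3 * Real.sin δ = Real.cos δ - Real.exp (-(2 * ℓ / n)) := by linarith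
  have hs3 : 1.7 ≤ √3 := by
    rw [Real.le_sqrt (by norm_num) (by norm_num)]; norm_num
  have hs3' : √3 ≤ 1.74 := by
    rw [Real.sqrt_le_left (by norm_num)]; norm_num
  have hsq : √3 * √3 = 3 := Real.mul_self_sqrt (by norm_num)
  have h3 := Real.add_one_le_exp (-(2 * ℓ / n))
  have h4 : Real.exp (-(2 * ℓ / n)) ≤ 1 - 2 * ℓ / n + (2 * ℓ / n) ^ 2 := by
    have h5 := Real.abs_exp_sub_one_sub_id_le (x := -(2 * ℓ / n)) (by
      rw [abs_neg, abs_of_nonneg (by positivity)]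
      have : 2 * ℓ / n = 2 * (ℓ / n) := by ring
      rw [this]; linarith)
    have h6 := le_abs_self (Real.exp (-(2 * ℓ / n)) - 1 - -(2 * ℓ / n))
    nlinarith
  have e1 : 2 * ℓ / n = 2 * (ℓ / n) := by ring
  rw [e1] at h2 h3 h4
  have hcosle : Real.cos δ ≤ 1 := Real.cos_le_one δ
  have hcosge : 1 - δ ^ 2 / 2 ≤ Real.cos δ := Real.one_sub_sq_div_two_le_cos
  have hδ2 : δ ^ 2 ≤ 9 * (ℓ / n) ^ 2 := by nlinarith
  have hsin_le : Real.sin δ ≤ δ := Real.sin_le hδ0
  have hsin_ge : δ - δ ^ 3 / 4 ≤ Real.sin δ := by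
    rcases hδ0.lt_or_eq with h | h
    · have h7 := (Real.sin_gt_sub_cube h).le
      have h8 : 0 < δ ^ 3 := by positivity
      linarith
    · rw [← h]; simp
  have hδ3 : δ ^ 3 ≤ 1 / (100 * n) := by
    have : δ ^ 3 = δ ^ 2 * δ := by ring
    rw [this]
    nlinarith [sq_nonneg δ]
  have up : √3 * δ ≤ 2 * (ℓ / n) + 1 / (100 * n) := by
    have h5 : √3 * δ ≤ √3 * Real.sin δ + √3 * (δ ^ 3 / 4) := by nlinarith
    have h6 : √3 * (δ ^ 3 / 4) ≤ 1 / (100 * n) := by
      have h7 : 0 ≤ δ ^ 3 := by positivity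
      nlinarith
    linarith
  have lo : 2 * (ℓ / n) - 1 / n ≤ √3 * δ := by
    have h5 : √3 * Real.sin δ ≤ √3 * δ := by nlinarith
    have h6 : (4 + 9 / 2) * (ℓ / n) ^ 2 ≤ 1 / n := by
      have : 1 / (100 * (n:ℝ)) = 1 / n / 100 := by field_simp
      rw [this] at hq2
      have : 0 < 1 / (n:ℝ) := by positivity
      linarith
    nlinarith
  -- conclusion
  have h5 : pos n (2 * ℓ) - (2 * Real.pi / 3 + 4 / √3 * ℓ / n) =
      2 / √3 * (√3 * δ - 2 * (ℓ / n)) := by
    have : pos n (2 * ℓ) = 2 * Real.pi / 3 + 2 * δ := by rw [hδ]; ring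
    rw [this]
    have hs0 : √3 ≠ 0 := by positivity
    field_simp
    ring
  rw [h5, abs_mul, abs_of_pos (by positivity)]
  have h6 : |√3 * δ - 2 * (ℓ / n)| ≤ 1 / n := by
    rw [abs_le]
    have : 1 / (100 * (n:ℝ)) ≤ 1 / n := by
      apply one_div_le_one_div_of_le hn0
      linarith
    constructor <;> linarith
  have h7 : 2 / √3 ≤ 2 := by
    rw [div_le_iff₀ (by positivity)]; linarith
  have h8 : 0 < 1 / (n:ℝ) := by positivity
  have h9 : (4:ℝ) / n = 4 * (1 / n) := by ring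
  rw [h9]
  have h10 : 0 ≤ 2 / √3 := by positivity
  nlinarith [abs_nonneg (√3 * δ - 2 * (ℓ / n))]

end Pool.Agent.N228.UC
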