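import Mathlib
import Pool.Agent.N228.UC.Pos

/-! # The undecided part of the half circle -/

set_option autoImplicit false

open Set MeasureTheory

namespace Pool.Agent.N228.UC

theorem sum_min {α : ℝ} (hα : 0 < α) (K : ℕ) :
    (α * Real.exp K ≤ 1 → ∑ k ∈ Finset.range (K + 1), min 1 (α * Real.exp k) ≤
      2 * (α * Real.exp K)) ∧
    (1 < α * Real.exp K → ∑ k ∈ Finset.range (K + 1), min 1 (α * Real.exp k) ≤
      3 + Real.log (α * Real.exp K)) := by
  induction K with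
  | zero =>
    simp only [Nat.cast_zero, Real.exp_zero, mul_one, zero_add, Finset.range_one,
      Finset.sum_singleton]
    constructor
    · intro h; rw [min_eq_right h]; linarith
    · intro h
      have := Real.log_pos h
      have h2 := min_le_left 1 α
      linarith
  | succ K ih =>
    have he : (2:ℝ) ≤ Real.exp 1 := by
      have := Real.exp_one_gt_d9; linarith
    have hK : Real.exp ((K + 1 : ℕ) : ℝ) = Real.exp K * Real.exp 1 := by
      rw [← Real.exp_add]; push_cast; rfl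
    have hpos : 0 < α * Real.exp K := by positivity
    rw [Finset.sum_range_succ]
    constructor
    · intro h
      have h1 : α * Real.exp K ≤ 1 := by
        rw [hK] at h
        nlinarith
      have h2 := ih.1 h1
      have h3 : min 1 (α * Real.exp ((K + 1 : ℕ) : ℝ)) ≤ α * Real.exp ((K + 1 : ℕ) : ℝ) :=
        min_le_right _ _
      have h4 : 2 * (α * Real.exp K) ≤ α * Real.exp ((K + 1 : ℕ) : ℝ) := by
        rw [hK]; nlinarith
      linarith
    · intro h
      have h3 : min 1 (α * Real.exp ((K + 1 : ℕ) : ℝ)) ≤ 1 := min_le_left _ _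
      rcases le_or_gt (α * Real.exp K) 1 with h1 | h1
      · have h2 := ih.1 h1
        have h4 := Real.log_pos h
        linarith
      · have h2 := ih.2 h1
        have h4 : Real.log (α * Real.exp ((K + 1 : ℕ) : ℝ)) = Real.log (α * Real.exp K) + 1 := by
          rw [hK, ← mul_assoc, Real.log_mul hpos.ne' (Real.exp_pos _).ne', Real.log_exp]
        linarith

theorem sum_min' {α T : ℝ} (hα : 0 < α) (K : ℕ) (hT : 1 ≤ T) (h : α * Real.exp K ≤ T) :
    ∑ k ∈ Finset.range (K + 1), min 1 (α * Real.exp k) ≤ 3 + Real.log T := by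
  obtain ⟨h1, h2⟩ := sum_min hα K
  have hlog := Real.log_nonneg hT
  rcases le_or_gt (α * Real.exp K) 1 with h3 | h3
  · have := h1 h3; linarith
  · have h4 := h2 h3
    have h5 := Real.log_le_log (by linarith) h
    linarith

theorem sum_exp_neg (K : ℕ) : ∑ k ∈ Finset.range K, Real.exp (-(k:ℝ)) ≤ 2 := by
  have he : (2:ℝ) ≤ Real.exp 1 := by
    have := Real.exp_one_gt_d9; linarith
  have h1 : ∀ k : ℕ, Real.exp (-(k:ℝ)) ≤ (1 / 2 : ℝ) ^ k := by
    intro k
    rw [Real.exp_neg, one_div, inv_pow]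
    apply inv_anti₀ (by positivity)
    have h2 : Real.exp (k:ℝ) = (Real.exp 1) ^ k := by rw [← Real.exp_nat_mul]; simp
    rw [h2]
    exact pow_le_pow_left₀ (by norm_num) he k
  calc ∑ k ∈ Finset.range K, Real.exp (-(k:ℝ)) ≤ ∑ k ∈ Finset.range K, (1 / 2 : ℝ) ^ k :=
        Finset.sum_le_sum fun k _ => h1 k
    _ ≤ 2 := by
        rw [geom_sum_eq (by norm_num)]
        have : 0 < (1 / 2 : ℝ) ^ K := by positivity
        have h2 : ((1 / 2 : ℝ) ^ K - 1) / (1 / 2 - 1) = 2 - 2 * (1 / 2 : ℝ) ^ K := by ring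
        rw [h2]; linarith

/-- one block -/
theorem block {n : ℕ} (hn : 10 ^ 6 ≤ n) {ω s t m : ℝ} (hω1 : (n:ℝ) / 2 ≤ ω)
    (hω2 : ω ≤ (n:ℝ) / 2 + 3 / 2) (hst : s ≤ t) (hts : t - s ≤ 3 / n) (hm : 0 ≤ m) :
    volume {x | x ∈ Icc s t ∧ |Real.cos (ω * x)| ≤ m} ≤ ENNReal.ofReal (17 / n * min 1 m) := by
  have hnr : (10:ℝ) ^ 6 ≤ n := by exact_mod_cast hn
  have hn0 : (0:ℝ) < n := by linarith
  have hpi := Real.pi_pos
  have hpi3 := Real.pi_gt_three
  have hpi2 : Real.pi < 3.15 := Real.pi_lt_d2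
  have hω : 0 < ω := by linarith
  rcases le_or_gt 1 m with h | h
  · rw [min_eq_left h]
    calc volume {x | x ∈ Icc s t ∧ |Real.cos (ω * x)| ≤ m} ≤ volume (Icc s t) :=
          measure_mono fun x hx => hx.1
      _ = ENNReal.ofReal (t - s) := Real.volume_Icc
      _ ≤ _ := by
          apply ENNReal.ofReal_le_ofReal
          have : 3 / (n:ℝ) ≤ 17 / n := by gcongr; norm_num
          linarith
  · rw [min_eq_right h.le]
    refine (cos_sub hω hst hm).trans (ENNReal.ofReal_le_ofReal ?_)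
    have h1 : ω * (t - s) ≤ 8 / 5 := by
      calc ω * (t - s) ≤ ((n:ℝ) / 2 + 3 / 2) * (3 / n) :=
            mul_le_mul hω2 hts (by linarith) (by positivity)
        _ = 3 / 2 + 9 / 2 / n := by field_simp; ring
        _ ≤ 8 / 5 := by
            have : 9 / 2 / (n:ℝ) ≤ 1 / 10 := by
              rw [div_le_iff₀ hn0]; linarith
            linarith
    have h2 : ω * (t - s) / Real.pi + 2 ≤ 13 / 5 := by
      have : ω * (t - s) / Real.pi ≤ 3 / 5 := by
        rw [div_le_iff₀ hpi]; linarith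
      linarith
    have h3 : Real.pi * m / ω ≤ 3.15 * m * 2 / n := by
      rw [div_le_div_iff₀ hω hn0]
      have h4 : Real.pi * m ≤ 3.15 * m := mul_le_mul_of_nonneg_right hpi2.le hm
      have h5 : 0 ≤ 3.15 * m := by positivity
      nlinarith
    calc (ω * (t - s) / Real.pi + 2) * (Real.pi * m / ω) ≤ 13 / 5 * (3.15 * m * 2 / n) :=
          mul_le_mul h2 h3 (by positivity) (by norm_num)
      _ = 16.38 / n * m := by ring
      _ ≤ 17 / n * m := by
          apply mul_le_mul_of_nonneg_right _ hm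
          gcongr; norm_num

/-- thresholds -/
noncomputable def mB (n k : ℕ) : ℝ :=
  Real.exp (2 - k) / 2 + 6 * Real.log n * Real.exp (k - 1) / n

noncomputable def mD (n k : ℕ) : ℝ :=
  5 * Real.exp (-(k:ℝ)) + 10 * Real.log n * Real.exp (k + 1) / n

/-- the undecided sets -/
def UB (n : ℕ) : Set ℝ := ⋃ k ∈ Finset.range (⌈Real.log n⌉₊ + 3),
  {x | x ∈ Icc (pos n (k - 2)) (pos n (k - 1)) ∧ |Real.cos (((n:ℝ) + 2) / 2 * x)| ≤ mB n k}

def UD (n : ℕ) : Set ℝ := ⋃ k ∈ Finset.range (⌈Real.log n⌉₊ + 6),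
  {x | x ∈ Icc (pos n (Real.log n + k)) (pos n (Real.log n + k + 1)) ∧
    |Real.cos (((n:ℝ) + 3) / 2 * x)| ≤ mD n k}

theorem vol_UB {n : ℕ} (hn : 10 ^ 6 ≤ n) :
    volume (UB n) ≤ ENNReal.ofReal (17 / n * (Real.log (Real.log n) + 15)) := by
  have hnr : (10:ℝ) ^ 6 ≤ n := by exact_mod_cast hn
  have hn0 : (0:ℝ) < n := by linarith
  have hl := log_ge hn
  set ℓ := Real.log n with hℓ
  have hexp : Real.exp ℓ = n := Real.exp_log hn0
  have hceil : (⌈ℓ⌉₊ : ℝ) < ℓ + 1 := Nat.ceil_lt_add_one (by linarith)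
  have hmB0 : ∀ k, 0 ≤ mB n k := fun k => by
    unfold mB; rw [← hℓ]; positivity
  have h1 : volume (UB n) ≤ ∑ k ∈ Finset.range (⌈ℓ⌉₊ + 3),
      ENNReal.ofReal (17 / n * min 1 (mB n k)) := by
    refine (measure_biUnion_finset_le _ _).trans (Finset.sum_le_sum fun k _ => ?_)
    have h2 := pos_lip hn (y := (k:ℝ) - 2) (y' := (k:ℝ) - 1)
      (by have : (0:ℝ) ≤ k := Nat.cast_nonneg k; linarith) (by linarith)
    refine block hn (by linarith) (by linarith) h2.1 ?_ (hmB0 k)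
    refine h2.2.trans (le_of_eq ?_)
    ring
  refine h1.trans ?_
  rw [← ENNReal.ofReal_sum_of_nonneg (fun k _ => by
    have : 0 ≤ min 1 (mB n k) := le_min zero_le_one (hmB0 k)
    positivity)]
  apply ENNReal.ofReal_le_ofReal
  rw [← Finset.mul_sum]
  apply mul_le_mul_of_nonneg_left _ (by positivity)
  have h2 : ∀ k, min 1 (mB n k) ≤ Real.exp 2 / 2 * Real.exp (-(k:ℝ)) +
      min 1 (6 * ℓ * Real.exp (-1) / n * Real.exp k) := by
    intro k
    have e1 : Real.exp (2 - k) / 2 = Real.exp 2 / 2 * Real.exp (-(k:ℝ)) := by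
      rw [sub_eq_add_neg, Real.exp_add]; ring
    have e2 : 6 * ℓ * Real.exp ((k:ℝ) - 1) / n = 6 * ℓ * Real.exp (-1) / n * Real.exp k := by
      rw [sub_eq_add_neg, Real.exp_add]; ring
    have h0 : 0 ≤ Real.exp 2 / 2 * Real.exp (-(k:ℝ)) := by positivity
    unfold mB
    rw [← hℓ, e1, e2]
    rcases le_total 1 (6 * ℓ * Real.exp (-1) / n * Real.exp k) with h | h
    · rw [min_eq_left h]
      have := min_le_left 1 (Real.exp 2 / 2 * Real.exp (-(k:ℝ)) +
        6 * ℓ * Real.exp (-1) / n * Real.exp k)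
      linarith
    · rw [min_eq_right h]
      exact min_le_right _ _
  have hK : ⌈ℓ⌉₊ + 3 = (⌈ℓ⌉₊ + 2) + 1 := by ring
  have e2b : Real.exp 2 ≤ 8 := by
    have h : Real.exp 2 = Real.exp 1 ^ 2 := by rw [← Real.exp_nat_mul]; norm_num
    rw [h]
    have := Real.exp_one_lt_d9
    have h0 := Real.exp_pos 1
    nlinarith
  have hT : 6 * ℓ * Real.exp (-1) / n * Real.exp ((⌈ℓ⌉₊ + 2 : ℕ) : ℝ) ≤ 48 * ℓ := by
    have h3 : Real.exp ((⌈ℓ⌉₊ + 2 : ℕ) : ℝ) ≤ n * Real.exp 3 := by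
      rw [← hexp, ← Real.exp_add]
      apply Real.exp_le_exp.mpr
      push_cast; linarith
    calc 6 * ℓ * Real.exp (-1) / n * Real.exp ((⌈ℓ⌉₊ + 2 : ℕ) : ℝ)
        ≤ 6 * ℓ * Real.exp (-1) / n * (n * Real.exp 3) :=
          mul_le_mul_of_nonneg_left h3 (by positivity)
      _ = 6 * ℓ * (Real.exp (-1) * Real.exp 3) := by field_simp
      _ = 6 * ℓ * Real.exp 2 := by rw [← Real.exp_add]; norm_num
      _ ≤ 48 * ℓ := by nlinarith
  have hlog48 : Real.log (48 * ℓ) ≤ Real.log ℓ + 4 := by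
    rw [Real.log_mul (by norm_num) (by linarith)]
    have : Real.log 48 ≤ 4 := by
      rw [Real.log_le_iff_le_exp (by norm_num)]
      have h9 : Real.exp 4 = (Real.exp 1) ^ 4 := by rw [← Real.exp_nat_mul]; norm_num
      rw [h9]
      calc (48:ℝ) ≤ (2.7182818283:ℝ) ^ 4 := by norm_num
        _ ≤ _ := by
          gcongr
          exact Real.exp_one_gt_d9.le
    linarith
  calc ∑ k ∈ Finset.range (⌈ℓ⌉₊ + 3), min 1 (mB n k)
      ≤ ∑ k ∈ Finset.range (⌈ℓ⌉₊ + 3), (Real.exp 2 / 2 * Real.exp (-(k:ℝ)) +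
        min 1 (6 * ℓ * Real.exp (-1) / n * Real.exp k)) := Finset.sum_le_sum fun k _ => h2 k
    _ = Real.exp 2 / 2 * ∑ k ∈ Finset.range (⌈ℓ⌉₊ + 3), Real.exp (-(k:ℝ)) +
        ∑ k ∈ Finset.range (⌈ℓ⌉₊ + 3), min 1 (6 * ℓ * Real.exp (-1) / n * Real.exp k) := by
        rw [Finset.sum_add_distrib, Finset.mul_sum]
    _ ≤ Real.exp 2 / 2 * 2 + (3 + Real.log (48 * ℓ)) := by
        apply add_le_add
        · exact mul_le_mul_of_nonneg_left (sum_exp_neg _) (by positivity)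
        · rw [hK]
          exact sum_min' (by positivity) _ (by linarith) hT
    _ ≤ _ := by linarith

theorem vol_UD {n : ℕ} (hn : 10 ^ 6 ≤ n) :
    volume (UD n) ≤ ENNReal.ofReal (17 / n * (Real.log (Real.log n) + 24)) := by
  have hnr : (10:ℝ) ^ 6 ≤ n := by exact_mod_cast hn
  have hn0 : (0:ℝ) < n := by linarith
  have hl := log_ge hn
  set ℓ := Real.log n with hℓ
  have hexp : Real.exp ℓ = n := Real.exp_log hn0
  have hceil : (⌈ℓ⌉₊ : ℝ) < ℓ + 1 := Nat.ceil_lt_add_one (by linarith)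
  have hmD0 : ∀ k, 0 ≤ mD n k := fun k => by
    unfold mD; rw [← hℓ]; positivity
  have h1 : volume (UD n) ≤ ∑ k ∈ Finset.range (⌈ℓ⌉₊ + 6),
      ENNReal.ofReal (17 / n * min 1 (mD n k)) := by
    refine (measure_biUnion_finset_le _ _).trans (Finset.sum_le_sum fun k _ => ?_)
    have h2 := pos_lip hn (y := ℓ + k) (y' := ℓ + k + 1)
      (by have : (0:ℝ) ≤ k := Nat.cast_nonneg k; linarith) (by linarith)
    refine block hn (by linarith) (by linarith) h2.1 ?_ (hmD0 k)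
    refine h2.2.trans (le_of_eq ?_)
    ring
  refine h1.trans ?_
  rw [← ENNReal.ofReal_sum_of_nonneg (fun k _ => by
    have : 0 ≤ min 1 (mD n k) := le_min zero_le_one (hmD0 k)
    positivity)]
  apply ENNReal.ofReal_le_ofReal
  rw [← Finset.mul_sum]
  apply mul_le_mul_of_nonneg_left _ (by positivity)
  have h2 : ∀ k, min 1 (mD n k) ≤ 5 * Real.exp (-(k:ℝ)) +
      min 1 (10 * ℓ * Real.exp 1 / n * Real.exp k) := by
    intro k
    have e2 : 10 * ℓ * Real.exp ((k:ℝ) + 1) / n = 10 * ℓ * Real.exp 1 / n * Real.exp k := by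
      rw [Real.exp_add]; ring
    have h0 : 0 ≤ 5 * Real.exp (-(k:ℝ)) := by positivity
    unfold mD
    rw [← hℓ, e2]
    rcases le_total 1 (10 * ℓ * Real.exp 1 / n * Real.exp k) with h | h
    · rw [min_eq_left h]
      have := min_le_left 1 (5 * Real.exp (-(k:ℝ)) + 10 * ℓ * Real.exp 1 / n * Real.exp k)
      linarith
    · rw [min_eq_right h]
      exact min_le_right _ _
  have hK : ⌈ℓ⌉₊ + 6 = (⌈ℓ⌉₊ + 5) + 1 := by ring
  have e7b : Real.exp 7 ≤ 1100 := by
    have h : Real.exp 7 = Real.exp 1 ^ 7 := by rw [← Real.exp_nat_mul]; norm_num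
    rw [h]
    calc Real.exp 1 ^ 7 ≤ (2.7182818286:ℝ) ^ 7 := by
          gcongr
          exact Real.exp_one_lt_d9.le
      _ ≤ 1100 := by norm_num
  have hT : 10 * ℓ * Real.exp 1 / n * Real.exp ((⌈ℓ⌉₊ + 5 : ℕ) : ℝ) ≤ 11000 * ℓ := by
    have h3 : Real.exp ((⌈ℓ⌉₊ + 5 : ℕ) : ℝ) ≤ n * Real.exp 6 := by
      rw [← hexp, ← Real.exp_add]
      apply Real.exp_le_exp.mpr
      push_cast; linarith
    calc 10 * ℓ * Real.exp 1 / n * Real.exp ((⌈ℓ⌉₊ + 5 : ℕ) : ℝ)
        ≤ 10 * ℓ * Real.exp 1 / n * (n * Real.exp 6) :=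
          mul_le_mul_of_nonneg_left h3 (by positivity)
      _ = 10 * ℓ * (Real.exp 1 * Real.exp 6) := by field_simp
      _ = 10 * ℓ * Real.exp 7 := by rw [← Real.exp_add]; norm_num
      _ ≤ 11000 * ℓ := by nlinarith
  have hlog : Real.log (11000 * ℓ) ≤ Real.log ℓ + 10 := by
    rw [Real.log_mul (by norm_num) (by linarith)]
    have : Real.log 11000 ≤ 10 := by
      rw [Real.log_le_iff_le_exp (by norm_num)]
      have h9 : Real.exp 10 = (Real.exp 1) ^ 10 := by rw [← Real.exp_nat_mul]; norm_num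
      rw [h9]
      calc (11000:ℝ) ≤ (2.7182818283:ℝ) ^ 10 := by norm_num
        _ ≤ _ := by
          gcongr
          exact Real.exp_one_gt_d9.le
    linarith
  calc ∑ k ∈ Finset.range (⌈ℓ⌉₊ + 6), min 1 (mD n k)
      ≤ ∑ k ∈ Finset.range (⌈ℓ⌉₊ + 6), (5 * Real.exp (-(k:ℝ)) +
        min 1 (10 * ℓ * Real.exp 1 / n * Real.exp k)) := Finset.sum_le_sum fun k _ => h2 k
    _ = 5 * ∑ k ∈ Finset.range (⌈ℓ⌉₊ + 6), Real.exp (-(k:ℝ)) +
        ∑ k ∈ Finset.range (⌈ℓ⌉₊ + 6), min 1 (10 * ℓ * Real.exp 1 / n * Real.exp k) := by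
        rw [Finset.sum_add_distrib, Finset.mul_sum]
    _ ≤ 5 * 2 + (3 + Real.log (11000 * ℓ)) := by
        apply add_le_add
        · exact mul_le_mul_of_nonneg_left (sum_exp_neg _) (by norm_num)
        · rw [hK]
          exact sum_min' (by positivity) _ (by linarith) hT
    _ ≤ _ := by linarith

end Pool.Agent.N228.UC
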