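import Mathlib
import Pool.Agent.N228.UC.Meas

/-! # The half circle -/

set_option autoImplicit false

open Set MeasureTheory N62a1eb23
open Pool.Agent.W747.MB (hyp)

namespace Pool.Agent.N228.UC

/-- the parameter of the circle with `c ^ (n - 1) = exp (i x)` -/
def At (n : ℕ) (x : ℝ) (c : ℂ) : Prop := ‖c‖ = 1 ∧ c ^ (n - 1) = Complex.exp (x * Complex.I)

/-- some such parameter is in the Multibrot set -/
def TM (n : ℕ) : Set ℝ := {x | ∃ c, At n x c ∧ c ∈ multibrotSet n}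

/-- some such parameter is not hyperbolic -/
def TH (n : ℕ) : Set ℝ := {x | ∃ c, At n x c ∧ c ∉ hyp n}

/-- the four ranges of `x` -/
theorem ranges {n : ℕ} (hn : 10 ^ 6 ≤ n) {x : ℝ} (hx0 : 0 ≤ x) (hxp : x ≤ Real.pi) :
    (x ≤ pos n (-Real.log 3) ∧ 3 ≤ (2 * Real.cos (x / 2)) ^ n) ∨
    (x ∈ Icc (pos n (-Real.log 3)) (pos n (Real.log n)) ∧
      1 / (120 * (n:ℝ) ^ 2) ≤ (2 * Real.cos (x / 2)) ^ n ∧ (2 * Real.cos (x / 2)) ^ n ≤ 3 ∧
      ∃ k ∈ Finset.range (⌈Real.log n⌉₊ + 3), x ∈ Icc (pos n (k - 2)) (pos n (k - 1)) ∧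
        (2 * Real.cos (x / 2)) ^ n / 2 + 6 * Real.log n / (n * (2 * Real.cos (x / 2)) ^ n) ≤
          mB n k) ∨
    (x ∈ Icc (pos n (Real.log n)) (pos n (2 * Real.log n + Real.log 120)) ∧
      1 / (120 * (n:ℝ) ^ 2) ≤ (2 * Real.cos (x / 2)) ^ n ∧
      n * (2 * Real.cos (x / 2)) ^ n ≤ 1 ∧
      ∃ k ∈ Finset.range (⌈Real.log n⌉₊ + 6),
        x ∈ Icc (pos n (Real.log n + k)) (pos n (Real.log n + k + 1)) ∧
        10 * Real.log n / (n ^ 2 * (2 * Real.cos (x / 2)) ^ n) +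
          5 * (n * (2 * Real.cos (x / 2)) ^ n) ≤ mD n k) ∨
    (pos n (2 * Real.log n + Real.log 120) ≤ x ∧
      (2 * Real.cos (x / 2)) ^ n ≤ 1 / (120 * n ^ 2)) := by
  have hnr : (10:ℝ) ^ 6 ≤ n := by exact_mod_cast hn
  have hn0 : (0:ℝ) < n := by linarith
  have hn1 : 1 ≤ n := by omega
  have hl := log_ge hn
  set ℓ := Real.log n with hℓ
  have hexp : Real.exp ℓ = n := Real.exp_log hn0
  have hl3 : Real.log 3 ≤ 2 := by
    have := Real.log_le_sub_one_of_pos (show (0:ℝ) < 3 by norm_num)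
    linarith
  have hl3' : 0 < Real.log 3 := Real.log_pos (by norm_num)
  have hl120 : Real.log 120 ≤ 5 := by
    rw [Real.log_le_iff_le_exp (by norm_num)]
    have h9 : Real.exp 5 = (Real.exp 1) ^ 5 := by rw [← Real.exp_nat_mul]; norm_num
    rw [h9]
    calc (120:ℝ) ≤ (2.7182818283:ℝ) ^ 5 := by norm_num
      _ ≤ _ := by
        gcongr
        exact Real.exp_one_gt_d9.le
  have hl120' : 0 < Real.log 120 := Real.log_pos (by norm_num)
  have hes : ∀ y : ℝ, -3 ≤ y → Real.exp (-(y / n)) ≤ 2 := fun y hy => by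
    have := exp_small hn hy; linarith
  set ρ := (2 * Real.cos (x / 2)) ^ n with hρ
  have e3 : Real.exp (-(-Real.log 3)) = 3 := by rw [neg_neg, Real.exp_log (by norm_num)]
  have e120 : Real.exp (-(2 * ℓ + Real.log 120)) = 1 / (120 * n ^ 2) := by
    rw [Real.exp_neg, Real.exp_add, Real.exp_log (by norm_num)]
    have : Real.exp (2 * ℓ) = (n:ℝ) ^ 2 := by
      rw [← hexp, ← Real.exp_nat_mul]; norm_num
    rw [this]
    field_simp
  have i3 := le_pos_iff hn1 hx0 hxp (hes (-Real.log 3) (by linarith))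
  rw [e3] at i3
  have i120 := le_pos_iff hn1 hx0 hxp (hes (2 * ℓ + Real.log 120) (by linarith))
  rw [e120] at i120
  have iℓ := le_pos_iff hn1 hx0 hxp (hes ℓ (by linarith))
  rw [Real.exp_neg, hexp] at iℓ
  by_cases h3 : x ≤ pos n (-Real.log 3)
  · exact Or.inl ⟨h3, i3.mp h3⟩
  push Not at h3
  have hρ3 : ρ ≤ 3 := by
    by_contra hh
    push Not at hh
    exact absurd (i3.mpr hh.le) (not_le.mpr h3)
  by_cases h120 : x ≤ pos n (2 * ℓ + Real.log 120)
  swap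
  · push Not at h120
    right; right; right
    refine ⟨h120.le, ?_⟩
    by_contra hh
    push Not at hh
    exact absurd (i120.mpr hh.le) (not_le.mpr h120)
  have hρ120 := i120.mp h120
  have hρ0 : 0 < ρ := lt_of_lt_of_le (by positivity) hρ120
  set y := -Real.log ρ with hy
  have hey : Real.exp (-y) = ρ := by rw [hy, neg_neg, Real.exp_log hρ0]
  have hy3 : -Real.log 3 ≤ y := by
    rw [hy]
    have := Real.log_le_log hρ0 hρ3
    linarith
  have hy120 : y ≤ 2 * ℓ + Real.log 120 := by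
    have h := hρ120
    rw [← e120, ← hρ, ← hey, Real.exp_le_exp] at h
    linarith
  by_cases hℓx : x ≤ pos n ℓ
  · right; left
    have hρℓ : (n:ℝ)⁻¹ ≤ ρ := iℓ.mp hℓx
    have hyℓ : y ≤ ℓ := by
      rw [← hexp, ← Real.exp_neg, ← hey, Real.exp_le_exp] at hρℓ
      linarith
    refine ⟨⟨h3.le, hℓx⟩, hρ120, hρ3, ⌊y + 2⌋₊, ?_, ⟨?_, ?_⟩, ?_⟩
    · rw [Finset.mem_range]
      have h4 : ⌊y + 2⌋₊ ≤ ⌊ℓ + 2⌋₊ := Nat.floor_mono (by linarith)
      have h5 : ⌊ℓ + 2⌋₊ = ⌊ℓ⌋₊ + 2 := by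
        have := Nat.floor_add_natCast (show 0 ≤ ℓ by linarith) 2
        simpa using this
      have h6 : ⌊ℓ⌋₊ ≤ ⌈ℓ⌉₊ := Nat.floor_le_ceil ℓ
      omega
    · have h4 : ((⌊y + 2⌋₊ : ℕ) : ℝ) ≤ y + 2 := Nat.floor_le (by linarith)
      by_contra hh
      push Not at hh
      have h5 := (le_pos_iff hn1 hx0 hxp (hes ((⌊y + 2⌋₊ : ℕ) - 2) (by
        have : (0:ℝ) ≤ ((⌊y + 2⌋₊ : ℕ) : ℝ) := Nat.cast_nonneg _
        linarith))).mp hh.le
      rw [← hρ, ← hey, Real.exp_le_exp] at h5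
      have h6 : y = ((⌊y + 2⌋₊ : ℕ) : ℝ) - 2 := by linarith
      have h7 := (le_pos_iff hn1 (x := pos n ((⌊y + 2⌋₊ : ℕ) - 2)) (y := ((⌊y + 2⌋₊ : ℕ) - 2))
        (pos_mem n _).1 (pos_mem n _).2 (hes _ (by
        have : (0:ℝ) ≤ ((⌊y + 2⌋₊ : ℕ) : ℝ) := Nat.cast_nonneg _
        linarith))).mp le_rfl
      -- `ρ = exp (-y)` forces equality
      have h8 : x = pos n ((⌊y + 2⌋₊ : ℕ) - 2) := by
        have h9 : 2 * Real.cos (x / 2) = Real.exp (-(((⌊y + 2⌋₊ : ℕ) - 2 : ℝ) / n)) := by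
          have h10 : 0 ≤ 2 * Real.cos (x / 2) := by
            have := Real.cos_nonneg_of_mem_Icc (x := x / 2) ⟨by linarith [Real.pi_pos], by linarith⟩
            linarith
          have h11 : (2 * Real.cos (x / 2)) ^ n =
              (Real.exp (-(((⌊y + 2⌋₊ : ℕ) - 2 : ℝ) / n))) ^ n := by
            rw [← hρ, ← hey, ← Real.exp_nat_mul]
            congr 1
            rw [← h6]; field_simp
          exact (pow_left_inj₀ h10 (Real.exp_pos _).le (by omega)).mp h11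
        unfold pos
        rw [← h9]
        have h12 : 2 * Real.cos (x / 2) / 2 = Real.cos (x / 2) := by ring
        rw [h12, Real.arccos_cos (by linarith) (by linarith)]
        ring
      linarith
    · have h4 : y + 2 < ((⌊y + 2⌋₊ : ℕ) : ℝ) + 1 := Nat.lt_floor_add_one _
      refine (le_pos_iff hn1 hx0 hxp (hes _ (by linarith))).mpr ?_
      rw [← hρ, ← hey, Real.exp_le_exp]
      linarith
    · have h4 : ((⌊y + 2⌋₊ : ℕ) : ℝ) ≤ y + 2 := Nat.floor_le (by linarith)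
      have h5 : y + 2 < ((⌊y + 2⌋₊ : ℕ) : ℝ) + 1 := Nat.lt_floor_add_one _
      unfold mB
      rw [← hℓ]
      apply add_le_add
      · apply div_le_div_of_nonneg_right _ (by norm_num)
        rw [← hey, Real.exp_le_exp]; linarith
      · have h6 : 6 * ℓ / (n * ρ) = 6 * ℓ * Real.exp y / n := by
          rw [← hey, Real.exp_neg]; field_simp
        rw [h6]
        apply div_le_div_of_nonneg_right _ hn0.le
        apply mul_le_mul_of_nonneg_left _ (by linarith)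
        rw [Real.exp_le_exp]; linarith
  · push Not at hℓx
    right; right; left
    have hρℓ : ρ ≤ (n:ℝ)⁻¹ := by
      by_contra hh
      push Not at hh
      exact absurd (iℓ.mpr hh.le) (not_le.mpr hℓx)
    have hyℓ : ℓ ≤ y := by
      rw [← hexp, ← Real.exp_neg, ← hey, Real.exp_le_exp] at hρℓ
      linarith
    refine ⟨⟨hℓx.le, h120⟩, hρ120, ?_, ⌊y - ℓ⌋₊, ?_, ⟨?_, ?_⟩, ?_⟩
    · calc (n:ℝ) * ρ ≤ n * (n:ℝ)⁻¹ := mul_le_mul_of_nonneg_left hρℓ hn0.le
        _ = 1 := by field_simp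
    · rw [Finset.mem_range]
      have h4 : ⌊y - ℓ⌋₊ ≤ ⌊ℓ + 5⌋₊ := Nat.floor_mono (by linarith)
      have h5 : ⌊ℓ + 5⌋₊ = ⌊ℓ⌋₊ + 5 := by
        have := Nat.floor_add_natCast (show 0 ≤ ℓ by linarith) 5
        simpa using this
      have h6 : ⌊ℓ⌋₊ ≤ ⌈ℓ⌉₊ := Nat.floor_le_ceil ℓ
      omega
    · have h4 : ((⌊y - ℓ⌋₊ : ℕ) : ℝ) ≤ y - ℓ := Nat.floor_le (by linarith)
      have hk0 : (0:ℝ) ≤ ((⌊y - ℓ⌋₊ : ℕ) : ℝ) := Nat.cast_nonneg _
      by_contra hh
      push Not at hh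
      have h5 := (le_pos_iff hn1 hx0 hxp (hes (ℓ + (⌊y - ℓ⌋₊ : ℕ)) (by linarith))).mp hh.le
      rw [← hρ, ← hey, Real.exp_le_exp] at h5
      have h6 : y = ℓ + ((⌊y - ℓ⌋₊ : ℕ) : ℝ) := by linarith
      have h8 : x = pos n (ℓ + (⌊y - ℓ⌋₊ : ℕ)) := by
        have h9 : 2 * Real.cos (x / 2) = Real.exp (-((ℓ + (⌊y - ℓ⌋₊ : ℕ) : ℝ) / n)) := by
          have h10 : 0 ≤ 2 * Real.cos (x / 2) := by
            have := Real.cos_nonneg_of_mem_Icc (x := x / 2) ⟨by linarith [Real.pi_pos], by linarith⟩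
            linarith
          have h11 : (2 * Real.cos (x / 2)) ^ n =
              (Real.exp (-((ℓ + (⌊y - ℓ⌋₊ : ℕ) : ℝ) / n))) ^ n := by
            rw [← hρ, ← hey, ← Real.exp_nat_mul]
            congr 1
            rw [← h6]; field_simp
          exact (pow_left_inj₀ h10 (Real.exp_pos _).le (by omega)).mp h11
        unfold pos
        rw [← h9]
        have h12 : 2 * Real.cos (x / 2) / 2 = Real.cos (x / 2) := by ring
        rw [h12, Real.arccos_cos (by linarith) (by linarith)]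
        ring
      linarith
    · have h4 : y - ℓ < ((⌊y - ℓ⌋₊ : ℕ) : ℝ) + 1 := Nat.lt_floor_add_one _
      have hk0 : (0:ℝ) ≤ ((⌊y - ℓ⌋₊ : ℕ) : ℝ) := Nat.cast_nonneg _
      refine (le_pos_iff hn1 hx0 hxp (hes _ (by linarith))).mpr ?_
      rw [← hρ, ← hey, Real.exp_le_exp]
      linarith
    · have h4 : ((⌊y - ℓ⌋₊ : ℕ) : ℝ) ≤ y - ℓ := Nat.floor_le (by linarith)
      have h5 : y - ℓ < ((⌊y - ℓ⌋₊ : ℕ) : ℝ) + 1 := Nat.lt_floor_add_one _
      unfold mD
      rw [← hℓ]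
      have h6 : 10 * ℓ / (n ^ 2 * ρ) = 10 * ℓ * Real.exp (y - ℓ) / n := by
        rw [Real.exp_sub, hexp, ← hey, Real.exp_neg]; field_simp
      have h7 : (n:ℝ) * ρ = Real.exp (-(y - ℓ)) := by
        rw [neg_sub, Real.exp_sub, hexp, ← hey, Real.exp_neg]; field_simp
      rw [h6, h7, add_comm]
      apply add_le_add
      · apply mul_le_mul_of_nonneg_left _ (by norm_num)
        rw [Real.exp_le_exp]; linarith
      · apply div_le_div_of_nonneg_right _ hn0.le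
        apply mul_le_mul_of_nonneg_left _ (by linarith)
        rw [Real.exp_le_exp]; linarith

/-- cover of the non-escaping part of the half circle -/
theorem cover_M {n : ℕ} (hn : 10 ^ 6 ≤ n) :
    TM n ∩ Icc 0 Real.pi ⊆ Icc (pos n (2 * Real.log n + Real.log 120)) Real.pi ∪ UB n ∪ UD n ∪
      {x | x ∈ Icc (pos n (-Real.log 3)) (pos n (Real.log n)) ∧
        Real.cos (((n:ℝ) + 2) / 2 * x) ≤ 0} ∪
      {x | x ∈ Icc (pos n (Real.log n)) (pos n (2 * Real.log n + Real.log 120)) ∧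
        Real.cos (((n:ℝ) + 3) / 2 * x) ≤ 0} := by
  rintro x ⟨⟨c, ⟨hc, hcx⟩, hM⟩, hx0, hxp⟩
  rcases ranges hn hx0 hxp with h | h | h | h
  · exact absurd hM (clsE hn hc hx0 hxp hcx h.2)
  · obtain ⟨h1, h2, h3, k, hk, h4, h5⟩ := h
    have h6 := (clsB hn hc hx0 hxp hcx h2 h3 h5).1
    have h7 : Real.cos (((n:ℝ) + 2) / 2 * x) < mB n k := by
      by_contra hh
      push Not at hh
      exact h6 hh hM
    rcases le_or_gt (Real.cos (((n:ℝ) + 2) / 2 * x)) 0 with h8 | h8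
    · left; right; exact ⟨h1, h8⟩
    · left; left; left; right
      refine mem_biUnion hk ⟨h4, ?_⟩
      rw [abs_of_pos h8]; exact h7.le
  · obtain ⟨h1, h2, h3, k, hk, h4, h5⟩ := h
    have h6 := (clsD hn hc hx0 hxp hcx h2 h3 h5).1
    have h7 : Real.cos (((n:ℝ) + 3) / 2 * x) < mD n k := by
      by_contra hh
      push Not at hh
      exact h6 hh hM
    rcases le_or_gt (Real.cos (((n:ℝ) + 3) / 2 * x)) 0 with h8 | h8
    · right; exact ⟨h1, h8⟩
    · left; left; right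
      refine mem_biUnion hk ⟨h4, ?_⟩
      rw [abs_of_pos h8]; exact h7.le
  · left; left; left; left
    exact ⟨h.1, hxp⟩

/-- cover of the non-hyperbolic part of the half circle -/
theorem cover_H {n : ℕ} (hn : 10 ^ 6 ≤ n) :
    TH n ∩ Icc 0 Real.pi ⊆ Icc 0 (pos n (-Real.log 3)) ∪ UB n ∪ UD n ∪
      {x | x ∈ Icc (pos n (-Real.log 3)) (pos n (Real.log n)) ∧
        0 ≤ Real.cos (((n:ℝ) + 2) / 2 * x)} ∪
      {x | x ∈ Icc (pos n (Real.log n)) (pos n (2 * Real.log n + Real.log 120)) ∧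
        0 ≤ Real.cos (((n:ℝ) + 3) / 2 * x)} := by
  rintro x ⟨⟨c, ⟨hc, hcx⟩, hM⟩, hx0, hxp⟩
  rcases ranges hn hx0 hxp with h | h | h | h
  · left; left; left; left
    exact ⟨hx0, h.1⟩
  · obtain ⟨h1, h2, h3, k, hk, h4, h5⟩ := h
    have h6 := (clsB hn hc hx0 hxp hcx h2 h3 h5).2
    have h7 : -mB n k < Real.cos (((n:ℝ) + 2) / 2 * x) := by
      by_contra hh
      push Not at hh
      exact hM (h6 hh)
    rcases le_or_gt 0 (Real.cos (((n:ℝ) + 2) / 2 * x)) with h8 | h8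
    · left; right; exact ⟨h1, h8⟩
    · left; left; left; right
      refine mem_biUnion hk ⟨h4, ?_⟩
      rw [abs_of_neg h8]; linarith
  · obtain ⟨h1, h2, h3, k, hk, h4, h5⟩ := h
    have h6 := (clsD hn hc hx0 hxp hcx h2 h3 h5).2
    have h7 : -mD n k < Real.cos (((n:ℝ) + 3) / 2 * x) := by
      by_contra hh
      push Not at hh
      exact hM (h6 hh)
    rcases le_or_gt 0 (Real.cos (((n:ℝ) + 3) / 2 * x)) with h8 | h8
    · right; exact ⟨h1, h8⟩
    · left; left; right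
      refine mem_biUnion hk ⟨h4, ?_⟩
      rw [abs_of_neg h8]; linarith
  · exact absurd (clsF hn hc hx0 hxp hcx h.2) hM

end Pool.Agent.N228.UC
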