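import Mathlib
import Pool.Agent.N228.UC.Half
import Pool.Agent.R240.Alm2

/-! # The whole circle -/

set_option autoImplicit false

open Set MeasureTheory N62a1eb23
open Pool.Agent.W747.MB (hyp)

namespace Pool.Agent.N228.UC

theorem pi_omega {n : ℕ} (hn : 10 ^ 6 ≤ n) {ω : ℝ} (hω : (n:ℝ) / 2 ≤ ω) :
    Real.pi / ω ≤ 13 / 2 / n := by
  have hnr : (10:ℝ) ^ 6 ≤ n := by exact_mod_cast hn
  have hn0 : (0:ℝ) < n := by linarith
  have hpi2 : Real.pi < 3.15 := Real.pi_lt_d2
  rw [div_le_div_iff₀ (by linarith) hn0]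
  nlinarith

theorem ends {n : ℕ} (hn : 10 ^ 6 ≤ n) :
    2 * Real.pi / 3 - 6 / n ≤ pos n (-Real.log 3) ∧ pos n (-Real.log 3) ≤ 2 * Real.pi / 3 ∧
    2 * Real.pi / 3 + 4 / √3 * Real.log n / n - 4 / n ≤
      pos n (2 * Real.log n + Real.log 120) ∧
    pos n (2 * Real.log n + Real.log 120) ≤
      2 * Real.pi / 3 + 4 / √3 * Real.log n / n + 19 / n ∧
    pos n (-Real.log 3) ≤ pos n (Real.log n) ∧
    pos n (Real.log n) ≤ pos n (2 * Real.log n + Real.log 120) := by
  have hnr : (10:ℝ) ^ 6 ≤ n := by exact_mod_cast hn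
  have hn0 : (0:ℝ) < n := by linarith
  have hl := log_ge hn
  have hl3 : Real.log 3 ≤ 2 := by
    have := Real.log_le_sub_one_of_pos (show (0:ℝ) < 3 by norm_num)
    linarith
  have hl3' : 0 < Real.log 3 := Real.log_pos (by norm_num)
  have hl120 : Real.log 120 ≤ 5 := by
    rw [Real.log_le_iff_le_exp (by norm_num)]
    have h9 : Real.exp 5 = (Real.exp 1) ^ 5 := by rw [← Real.exp_nat_mul]; norm_num
    rw [h9]
    calc (120:ℝ) ≤ (2.7182818283:ℝ) ^ 5 := by norm_num
      _ ≤ _ := by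
        gcongr
        exact Real.exp_one_gt_d9.le
  have hl120' : 0 < Real.log 120 := Real.log_pos (by norm_num)
  have h1 := pos_lip hn (y := -Real.log 3) (y' := 0) (by linarith) (by linarith)
  have h2 := pos_lip hn (y := 2 * Real.log n) (y' := 2 * Real.log n + Real.log 120)
    (by linarith) (by linarith)
  have h3 := pos_lip hn (y := -Real.log 3) (y' := Real.log n) (by linarith) (by linarith)
  have h4 := pos_lip hn (y := Real.log n) (y' := 2 * Real.log n + Real.log 120)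
    (by linarith) (by linarith)
  have h5 := pos_asym hn
  rw [abs_le] at h5
  rw [pos_zero] at h1
  have e1 : 3 * (0 - -Real.log 3) / n ≤ 6 / n := by
    apply div_le_div_of_nonneg_right _ hn0.le
    linarith
  have e2 : 3 * (2 * Real.log n + Real.log 120 - 2 * Real.log n) / n ≤ 15 / n := by
    apply div_le_div_of_nonneg_right _ hn0.le
    linarith
  have e3 : (19:ℝ) / n = 15 / n + 4 / n := by ring
  refine ⟨by linarith [h1.2], h1.1, by linarith [h2.1, h5.1], ?_, h3.1, h4.1⟩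
  rw [e3]
  linarith [h2.2, h5.2]

/-- error term -/
noncomputable def er (n : ℕ) : ℝ := (34 * Real.log (Real.log n) + 680) / n

theorem half_M {n : ℕ} (hn : 10 ^ 6 ≤ n) :
    volume (TM n ∩ Icc 0 Real.pi) ≤
      ENNReal.ofReal (Real.pi / 3 - 2 / √3 * Real.log n / n + er n) := by
  have hnr : (10:ℝ) ^ 6 ≤ n := by exact_mod_cast hn
  have hn0 : (0:ℝ) < n := by linarith
  have hl := log_ge hn
  have hll : 0 ≤ Real.log (Real.log n) := Real.log_nonneg (by linarith)
  obtain ⟨e1, e2, e3, e4, e5, e6⟩ := ends hn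
  have hpF := (pos_mem n (2 * Real.log n + Real.log 120)).2
  have w1 := pi_omega hn (ω := ((n:ℝ) + 2) / 2) (by linarith)
  have w2 := pi_omega hn (ω := ((n:ℝ) + 3) / 2) (by linarith)
  have v1 := (cos_half (ω := ((n:ℝ) + 2) / 2) (by positivity) e5).1
  have v2 := (cos_half (ω := ((n:ℝ) + 3) / 2) (by positivity) e6).1
  have v3 := vol_UB hn
  have v4 := vol_UD hn
  have v5 : volume (Icc (pos n (2 * Real.log n + Real.log 120)) Real.pi) =
    ENNReal.ofReal (Real.pi - pos n (2 * Real.log n + Real.log 120)) := Real.volume_Icc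
  have hpo1 : 0 < Real.pi / (((n:ℝ) + 2) / 2) := by positivity
  have hpo2 : 0 < Real.pi / (((n:ℝ) + 3) / 2) := by positivity
  have hB0 : 0 ≤ 17 / (n:ℝ) * (Real.log (Real.log n) + 15) := by positivity
  have hD0 : 0 ≤ 17 / (n:ℝ) * (Real.log (Real.log n) + 24) := by positivity
  refine (measure_mono (cover_M hn)).trans ?_
  refine (measure_union_le _ _).trans ?_
  refine (add_le_add_left (measure_union_le _ _) _).trans ?_
  refine (add_le_add_left (add_le_add_left (measure_union_le _ _) _) _).trans ?_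
  refine (add_le_add_left (add_le_add_left (add_le_add_left (measure_union_le _ _) _) _) _).trans ?_
  refine (add_le_add (add_le_add (add_le_add (add_le_add v5.le v3) v4) v1) v2).trans ?_
  rw [← ENNReal.ofReal_add (by linarith) hB0, ← ENNReal.ofReal_add (by linarith) hD0,
    ← ENNReal.ofReal_add (by linarith) (by linarith), ← ENNReal.ofReal_add (by linarith)
    (by linarith)]
  apply ENNReal.ofReal_le_ofReal
  unfold er
  have t1 : 2 / √3 * Real.log n / n = (4 / √3 * Real.log n / n) / 2 := by ring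
  have t2 : (34 * Real.log (Real.log n) + 680) / (n:ℝ) =
    17 / n * (Real.log (Real.log n) + 15) + 17 / n * (Real.log (Real.log n) + 24) + 17 / n := by
    ring
  have t3 : 0 < 1 / (n:ℝ) := by positivity
  have t4 : (6:ℝ) / n = 6 * (1 / n) := by ring
  have t5 : (4:ℝ) / n = 4 * (1 / n) := by ring
  have t6 : 13 / 2 / (n:ℝ) = 13 / 2 * (1 / n) := by ring
  have t7 : (17:ℝ) / n = 17 * (1 / n) := by ring
  rw [t1, t2]
  rw [t4] at e1
  rw [t5] at e3
  rw [t6] at w1 w2
  rw [t7]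
  linarith

theorem half_H {n : ℕ} (hn : 10 ^ 6 ≤ n) :
    volume (TH n ∩ Icc 0 Real.pi) ≤
      ENNReal.ofReal (2 * Real.pi / 3 + 2 / √3 * Real.log n / n + er n) := by
  have hnr : (10:ℝ) ^ 6 ≤ n := by exact_mod_cast hn
  have hn0 : (0:ℝ) < n := by linarith
  have hl := log_ge hn
  have hll : 0 ≤ Real.log (Real.log n) := Real.log_nonneg (by linarith)
  obtain ⟨e1, e2, e3, e4, e5, e6⟩ := ends hn
  have hpF := (pos_mem n (-Real.log 3)).1
  have w1 := pi_omega hn (ω := ((n:ℝ) + 2) / 2) (by linarith)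
  have w2 := pi_omega hn (ω := ((n:ℝ) + 3) / 2) (by linarith)
  have v1 := (cos_half (ω := ((n:ℝ) + 2) / 2) (by positivity) e5).2
  have v2 := (cos_half (ω := ((n:ℝ) + 3) / 2) (by positivity) e6).2
  have v3 := vol_UB hn
  have v4 := vol_UD hn
  have v5 : volume (Icc 0 (pos n (-Real.log 3))) =
    ENNReal.ofReal (pos n (-Real.log 3)) := by rw [Real.volume_Icc, sub_zero]
  have hpo1 : 0 < Real.pi / (((n:ℝ) + 2) / 2) := by positivity
  have hpo2 : 0 < Real.pi / (((n:ℝ) + 3) / 2) := by positivity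
  have hB0 : 0 ≤ 17 / (n:ℝ) * (Real.log (Real.log n) + 15) := by positivity
  have hD0 : 0 ≤ 17 / (n:ℝ) * (Real.log (Real.log n) + 24) := by positivity
  refine (measure_mono (cover_H hn)).trans ?_
  refine (measure_union_le _ _).trans ?_
  refine (add_le_add_left (measure_union_le _ _) _).trans ?_
  refine (add_le_add_left (add_le_add_left (measure_union_le _ _) _) _).trans ?_
  refine (add_le_add_left (add_le_add_left (add_le_add_left (measure_union_le _ _) _) _) _).trans ?_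
  refine (add_le_add (add_le_add (add_le_add (add_le_add v5.le v3) v4) v1) v2).trans ?_
  rw [← ENNReal.ofReal_add (by linarith) hB0, ← ENNReal.ofReal_add (by linarith) hD0,
    ← ENNReal.ofReal_add (by linarith) (by linarith), ← ENNReal.ofReal_add (by linarith)
    (by linarith)]
  apply ENNReal.ofReal_le_ofReal
  unfold er
  have t1 : 2 / √3 * Real.log n / n = (4 / √3 * Real.log n / n) / 2 := by ring
  have t2 : (34 * Real.log (Real.log n) + 680) / (n:ℝ) =
    17 / n * (Real.log (Real.log n) + 15) + 17 / n * (Real.log (Real.log n) + 24) + 17 / n := by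
    ring
  have t3 : 0 < 1 / (n:ℝ) := by positivity
  have t5 : (19:ℝ) / n = 19 * (1 / n) := by ring
  have t6 : 13 / 2 / (n:ℝ) = 13 / 2 * (1 / n) := by ring
  have t7 : (17:ℝ) / n = 17 * (1 / n) := by ring
  rw [t1, t2]
  rw [t5] at e4
  rw [t6] at w1 w2
  rw [t7]
  linarith

/-! ### Symmetries -/

theorem At_add {n : ℕ} {x : ℝ} {c : ℂ} : At n (x + 2 * Real.pi) c ↔ At n x c := by
  unfold At
  have : Complex.exp (((x + 2 * Real.pi : ℝ) : ℂ) * Complex.I) = Complex.exp (x * Complex.I) := by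
    have h1 : ((x + 2 * Real.pi : ℝ) : ℂ) * Complex.I = x * Complex.I + 2 * Real.pi * Complex.I := by
      push_cast; ring
    rw [h1, Complex.exp_add, Complex.exp_two_pi_mul_I, mul_one]
  rw [this]

theorem At_neg {n : ℕ} {x : ℝ} {c : ℂ} (h : At n x c) : At n (-x) ((starRingEnd ℂ) c) := by
  refine ⟨by rw [RCLike.norm_conj]; exact h.1, ?_⟩
  rw [← map_pow, h.2, ← Complex.exp_conj]
  congr 1
  simp

theorem iter_conj (n : ℕ) (c z : ℂ) (k : ℕ) :
    (fun w : ℂ => w ^ n + (starRingEnd ℂ) c)^[k] ((starRingEnd ℂ) z) =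
      (starRingEnd ℂ) ((fun w : ℂ => w ^ n + c)^[k] z) := by
  induction k with
  | zero => rfl
  | succ k ih =>
    rw [Function.iterate_succ_apply', Function.iterate_succ_apply', ih, map_add, map_pow]

theorem mem_conj {n : ℕ} {c : ℂ} (h : c ∈ multibrotSet n) :
    (starRingEnd ℂ) c ∈ multibrotSet n := by
  intro ht
  apply h
  have h1 := ht
  rw [← tendsto_norm_atTop_iff_cobounded] at h1 ⊢
  refine h1.congr fun k => ?_
  have h2 := iter_conj n c 0 k
  rw [map_zero] at h2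
  rw [h2, RCLike.norm_conj]

theorem hyp_conj {n : ℕ} {c : ℂ} (h : c ∈ hyp n) : (starRingEnd ℂ) c ∈ hyp n := by
  obtain ⟨m, z, hm, hper, hd, hlt⟩ := h
  have hfun : ∀ w : ℂ, (fun w : ℂ => w ^ n + (starRingEnd ℂ) c)^[m] w =
      (starRingEnd ℂ) ((fun w : ℂ => w ^ n + c)^[m] ((starRingEnd ℂ) w)) := by
    intro w
    have h1 := iter_conj n c ((starRingEnd ℂ) w) m
    rw [Complex.conj_conj] at h1
    exact h1
  have hder : HasDerivAt ((fun w : ℂ => w ^ n + (starRingEnd ℂ) c)^[m])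
      ((starRingEnd ℂ) (deriv ((fun w : ℂ => w ^ n + c)^[m]) z)) ((starRingEnd ℂ) z) := by
    have h1 := hd.hasDerivAt.conj_conj
    have h2 : (⇑(starRingEnd ℂ) ∘ (fun w : ℂ => w ^ n + c)^[m] ∘ ⇑(starRingEnd ℂ)) =
        (fun w : ℂ => w ^ n + (starRingEnd ℂ) c)^[m] := by
      funext w
      rw [hfun]; rfl
    rw [h2] at h1
    exact h1
  refine ⟨m, (starRingEnd ℂ) z, hm, ?_, hder.differentiableAt, ?_⟩
  · show (fun w : ℂ => w ^ n + (starRingEnd ℂ) c)^[m] ((starRingEnd ℂ) z) = (starRingEnd ℂ) z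
    rw [iter_conj]
    have : (fun w : ℂ => w ^ n + c)^[m] z = z := hper
    rw [this]
  · rw [hder.deriv, RCLike.norm_conj]; exact hlt

theorem TM_add {n : ℕ} {x : ℝ} : x + 2 * Real.pi ∈ TM n ↔ x ∈ TM n := by
  unfold TM
  simp only [Set.mem_ofPred_eq, At_add]

theorem TH_add {n : ℕ} {x : ℝ} : x + 2 * Real.pi ∈ TH n ↔ x ∈ TH n := by
  unfold TH
  simp only [Set.mem_ofPred_eq, At_add]

theorem TM_neg {n : ℕ} {x : ℝ} (h : x ∈ TM n) : -x ∈ TM n := by
  obtain ⟨c, h1, h2⟩ := h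
  exact ⟨_, At_neg h1, mem_conj h2⟩

theorem TH_neg {n : ℕ} {x : ℝ} (h : x ∈ TH n) : -x ∈ TH n := by
  obtain ⟨c, h1, h2⟩ := h
  refine ⟨_, At_neg h1, fun h3 => h2 ?_⟩
  have := hyp_conj h3
  rwa [Complex.conj_conj] at this

/-- from the half circle to the circle -/
theorem whole {T : Set ℝ} (hper : ∀ x, x + 2 * Real.pi ∈ T ↔ x ∈ T) (hneg : ∀ x ∈ T, -x ∈ T) :
    volume (T ∩ Icc 0 (2 * Real.pi)) ≤ 2 * volume (T ∩ Icc 0 Real.pi) := by
  have h1 : T ∩ Icc 0 (2 * Real.pi) ⊆ (T ∩ Icc 0 Real.pi) ∪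
      (fun x => 2 * Real.pi - x) ⁻¹' (T ∩ Icc 0 Real.pi) := by
    rintro x ⟨hx, h0, h2⟩
    rcases le_total x Real.pi with h | h
    · exact Or.inl ⟨hx, h0, h⟩
    · right
      refine ⟨?_, ?_, ?_⟩
      · have h3 := hneg x hx
        have h4 := (hper (-x)).mpr h3
        have h5 : -x + 2 * Real.pi = 2 * Real.pi - x := by ring
        rwa [h5] at h4
      · show 0 ≤ 2 * Real.pi - x; linarith
      · show 2 * Real.pi - x ≤ Real.pi; linarith
  refine (measure_mono h1).trans ((measure_union_le _ _).trans ?_)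
  have h2 : volume ((fun x => 2 * Real.pi - x) ⁻¹' (T ∩ Icc 0 Real.pi)) =
      volume (T ∩ Icc 0 Real.pi) := by
    have h3 : (fun x : ℝ => 2 * Real.pi - x) ⁻¹' (T ∩ Icc 0 Real.pi) =
        Neg.neg ⁻¹' ((fun x : ℝ => x + 2 * Real.pi) ⁻¹' (T ∩ Icc 0 Real.pi)) := by
      ext x
      simp only [mem_preimage]
      have : -x + 2 * Real.pi = 2 * Real.pi - x := by ring
      rw [this]
    rw [h3, Measure.measure_preimage_neg, measure_preimage_add_right]
  rw [h2, two_mul]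

/-- the multiplication by `m` on the circle -/
theorem transfer {T : Set ℝ} (hper : ∀ x, x + 2 * Real.pi ∈ T ↔ x ∈ T) {m : ℕ} (hm : 0 < m) :
    volume {θ : ℝ | θ ∈ Icc 0 (2 * Real.pi) ∧ (m:ℝ) * θ ∈ T} ≤ volume (T ∩ Icc 0 (2 * Real.pi)) := by
  have hpi := Real.pi_pos
  have hm0 : (0:ℝ) < m := by exact_mod_cast hm
  have hperk : ∀ (k : ℕ) (x : ℝ), x + 2 * Real.pi * k ∈ T ↔ x ∈ T := by
    intro k
    induction k with
    | zero => intro x; simp
    | succ k ih =>
      intro x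
      have : x + 2 * Real.pi * ((k + 1 : ℕ) : ℝ) = (x + 2 * Real.pi * k) + 2 * Real.pi := by
        push_cast; ring
      rw [this, hper, ih]
  have h1 : {θ : ℝ | θ ∈ Icc 0 (2 * Real.pi) ∧ (m:ℝ) * θ ∈ T} ⊆
      (fun θ => (m:ℝ) * θ) ⁻¹' (⋃ k ∈ Finset.range m,
        (fun x => x + -(2 * Real.pi * k)) ⁻¹' (T ∩ Icc 0 (2 * Real.pi))) := by
    rintro θ ⟨⟨h0, h2⟩, hT⟩
    simp only [mem_preimage, mem_iUnion]
    -- the block
    set k := min ⌊(m:ℝ) * θ / (2 * Real.pi)⌋₊ (m - 1) with hk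
    have hk1 : k < m := by omega
    have hkle : (k:ℝ) ≤ (m:ℝ) * θ / (2 * Real.pi) := by
      calc (k:ℝ) ≤ ((⌊(m:ℝ) * θ / (2 * Real.pi)⌋₊ : ℕ) : ℝ) := by
            exact_mod_cast min_le_left _ _
        _ ≤ _ := Nat.floor_le (by positivity)
    have hkge : (m:ℝ) * θ / (2 * Real.pi) ≤ k + 1 := by
      rcases min_choice ⌊(m:ℝ) * θ / (2 * Real.pi)⌋₊ (m - 1) with h | h
      · rw [hk, h]; exact (Nat.lt_floor_add_one _).le
      · rw [hk, h]
        have h3 : ((m - 1 : ℕ) : ℝ) + 1 = m := by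
          rw [Nat.cast_sub (by omega)]; push_cast; ring
        rw [h3, div_le_iff₀ (by positivity)]
        nlinarith
    rw [le_div_iff₀ (by positivity)] at hkle
    rw [div_le_iff₀ (by positivity)] at hkge
    refine ⟨k, Finset.mem_range.mpr hk1, ?_, ?_, ?_⟩
    · rw [← hperk k]
      have : (m:ℝ) * θ + -(2 * Real.pi * k) + 2 * Real.pi * k = m * θ := by ring
      rwa [this]
    · linarith
    · linarith
  refine (measure_mono h1).trans ?_
  rw [Real.volume_preimage_mul_left hm0.ne']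
  have h2 : volume (⋃ k ∈ Finset.range m,
      (fun x : ℝ => x + -(2 * Real.pi * k)) ⁻¹' (T ∩ Icc 0 (2 * Real.pi))) ≤
      m * volume (T ∩ Icc 0 (2 * Real.pi)) := by
    refine (measure_biUnion_finset_le _ _).trans ?_
    simp only [measure_preimage_add_right]
    rw [Finset.sum_const, Finset.card_range, nsmul_eq_mul]
  refine (mul_le_mul_right h2 _).trans ?_
  rw [← mul_assoc, abs_of_pos (by positivity), ← ENNReal.ofReal_natCast m,
    ← ENNReal.ofReal_mul (by positivity), inv_mul_cancel₀ hm0.ne', ENNReal.ofReal_one, one_mul]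

/-- the part of the unit circle in the Multibrot set, and the non-hyperbolic part -/
def CM (n : ℕ) : Set ℝ := {θ | θ ∈ Icc 0 (2 * Real.pi) ∧
  Complex.exp (θ * Complex.I) ∈ multibrotSet n}

def CH (n : ℕ) : Set ℝ := {θ | θ ∈ Icc 0 (2 * Real.pi) ∧ Complex.exp (θ * Complex.I) ∉ hyp n}

theorem At_exp {n : ℕ} (hn : 2 ≤ n) (θ : ℝ) :
    At n (((n - 1 : ℕ) : ℝ) * θ) (Complex.exp (θ * Complex.I)) := by
  refine ⟨Complex.norm_exp_ofReal_mul_I θ, ?_⟩
  rw [← Complex.exp_nat_mul]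
  congr 1
  push_cast; ring

theorem vol_CM {n : ℕ} (hn : 10 ^ 6 ≤ n) :
    volume (CM n) ≤
      ENNReal.ofReal (2 * Real.pi / 3 - 4 / √3 * Real.log n / n + 2 * er n) := by
  have hn2 : 2 ≤ n := le_trans (by norm_num) hn
  have h1 : CM n ⊆ {θ : ℝ | θ ∈ Icc 0 (2 * Real.pi) ∧ ((n - 1 : ℕ) : ℝ) * θ ∈ TM n} := by
    rintro θ ⟨h2, h3⟩
    exact ⟨h2, _, At_exp hn2 θ, h3⟩
  refine (measure_mono h1).trans ((transfer (fun x => TM_add) (by omega)).trans
    ((whole (fun x => TM_add) (fun x => TM_neg)).trans ?_))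
  refine (mul_le_mul_right (half_M hn) 2).trans (le_of_eq ?_)
  have : (2 : ENNReal) = ENNReal.ofReal 2 := by norm_num
  rw [this, ← ENNReal.ofReal_mul (by norm_num)]
  congr 1
  ring

theorem vol_CH {n : ℕ} (hn : 10 ^ 6 ≤ n) :
    volume (CH n) ≤
      ENNReal.ofReal (4 * Real.pi / 3 + 4 / √3 * Real.log n / n + 2 * er n) := by
  have hn2 : 2 ≤ n := le_trans (by norm_num) hn
  have h1 : CH n ⊆ {θ : ℝ | θ ∈ Icc 0 (2 * Real.pi) ∧ ((n - 1 : ℕ) : ℝ) * θ ∈ TH n} := by
    rintro θ ⟨h2, h3⟩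
    exact ⟨h2, _, At_exp hn2 θ, h3⟩
  refine (measure_mono h1).trans ((transfer (fun x => TH_add) (by omega)).trans
    ((whole (fun x => TH_add) (fun x => TH_neg)).trans ?_))
  refine (mul_le_mul_right (half_H hn) 2).trans (le_of_eq ?_)
  have : (2 : ENNReal) = ENNReal.ofReal 2 := by norm_num
  rw [this, ← ENNReal.ofReal_mul (by norm_num)]
  congr 1
  ring

end Pool.Agent.N228.UC
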