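import Mathlib
import Pool.Agent.N228.UC.Total
import Pool.Agent.N228.DQ.Hyp
import Pool.Agent.TH363.CD.Uniq
import Pool.Agent.H712R2.MultibrotConnected
import Pool.Agent.R240.Alm2

/-! # Lengths on the unit circle, and almost every parameter -/

set_option autoImplicit false

open Set MeasureTheory N62a1eb23 Filter Topology
open Pool.Agent.W747.MB (hyp)

namespace Pool.Agent.N228.UC

/-- the hyperbolic part of the unit circle -/
def CP (n : ℕ) : Set ℝ := {θ | θ ∈ Icc 0 (2 * Real.pi) ∧ Complex.exp (θ * Complex.I) ∈ hyp n}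

/-- the part of the unit circle in the Multibrot set and not hyperbolic -/
def CB (n : ℕ) : Set ℝ := {θ | θ ∈ Icc 0 (2 * Real.pi) ∧
  Complex.exp (θ * Complex.I) ∈ multibrotSet n ∧ Complex.exp (θ * Complex.I) ∉ hyp n}

theorem hyp_sub {n : ℕ} (hn : 2 ≤ n) : hyp n ⊆ multibrotSet n := fun _ hc =>
  interior_subset (Pool.Agent.R240.Alm.att_interior hn hc)

theorem meas_M {n : ℕ} (hn : 2 ≤ n) :
    MeasurableSet {θ : ℝ | Complex.exp (θ * Complex.I) ∈ multibrotSet n} := by
  have h1 : IsClosed (multibrotSet n) := (Pool.Agent.H712R2.isCompact_multibrot hn).isClosed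
  have h2 : Continuous fun θ : ℝ => Complex.exp (θ * Complex.I) := by fun_prop
  exact (h1.preimage h2).measurableSet

theorem meas_H {n : ℕ} (hn : 2 ≤ n) :
    MeasurableSet {θ : ℝ | Complex.exp (θ * Complex.I) ∈ hyp n} := by
  have h1 : IsOpen (hyp n) := Pool.Agent.N228.DQ.isOpen_hyp hn
  have h2 : Continuous fun θ : ℝ => Complex.exp (θ * Complex.I) := by fun_prop
  exact (h1.preimage h2).measurableSet

theorem meas_bad {n : ℕ} (hn : 2 ≤ n) :
    MeasurableSet {θ : ℝ | n ∈ Pool.Agent.R240.Alm.bad (Complex.exp (θ * Complex.I))} := by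
  have h1 : {θ : ℝ | n ∈ Pool.Agent.R240.Alm.bad (Complex.exp (θ * Complex.I))} =
      {θ : ℝ | Complex.exp (θ * Complex.I) ∈ multibrotSet n} \
      {θ : ℝ | Complex.exp (θ * Complex.I) ∈ hyp n} := by
    ext θ
    exact ⟨fun h => ⟨h.2.1, h.2.2⟩, fun h => ⟨hn, h.1, h.2⟩⟩
  rw [h1]
  exact (meas_M hn).diff (meas_H hn)

theorem vol_Icc : volume (Icc 0 (2 * Real.pi)) = ENNReal.ofReal (2 * Real.pi) := by
  rw [Real.volume_Icc, sub_zero]

theorem vol_ne_top {T : Set ℝ} (h : T ⊆ Icc 0 (2 * Real.pi)) : volume T ≠ ⊤ := by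
  refine ne_top_of_le_ne_top ?_ (measure_mono h)
  rw [vol_Icc]; exact ENNReal.ofReal_ne_top

theorem er_nonneg {n : ℕ} (hn : 10 ^ 6 ≤ n) : 0 ≤ er n := by
  have hnr : (10:ℝ) ^ 6 ≤ n := by exact_mod_cast hn
  have hl := log_ge hn
  have hll : 0 ≤ Real.log (Real.log n) := Real.log_nonneg (by linarith)
  unfold er
  positivity

theorem main_nonneg {n : ℕ} (hn : 10 ^ 6 ≤ n) :
    0 ≤ 2 * Real.pi / 3 - 4 / √3 * Real.log n / n + 2 * er n := by
  have hnr : (10:ℝ) ^ 6 ≤ n := by exact_mod_cast hn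
  have hn0 : (0:ℝ) < n := by linarith
  have he := er_nonneg hn
  have h1 := log_le hn
  have h2 : Real.log n / n ≤ 1 / 1000 := by
    rw [div_le_div_iff₀ hn0 (by norm_num)]
    linarith
  have h3 : 4 / √3 ≤ 4 := by
    rw [div_le_iff₀ (by positivity)]
    have : (1:ℝ) ≤ √3 := by rw [Real.one_le_sqrt]; norm_num
    linarith
  have h4 : 4 / √3 * Real.log n / n ≤ 4 * (1 / 1000) := by
    rw [mul_div_assoc]
    have : 0 ≤ Real.log n / n := by
      have := log_ge hn
      positivity
    gcongr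
  have := Real.pi_gt_three
  linarith

/-- two-term asymptotics of the length of the Multibrot set on the unit circle -/
theorem len_M {n : ℕ} (hn : 10 ^ 6 ≤ n) :
    |(volume (CM n)).toReal - (2 * Real.pi / 3 - 4 / √3 * Real.log n / n)| ≤ 2 * er n ∧
    |(volume (CP n)).toReal - (2 * Real.pi / 3 - 4 / √3 * Real.log n / n)| ≤ 2 * er n ∧
    (volume (CB n)).toReal ≤ 4 * er n := by
  have hn2 : 2 ≤ n := le_trans (by norm_num) hn
  have hnr : (10:ℝ) ^ 6 ≤ n := by exact_mod_cast hn
  have hn0 : (0:ℝ) < n := by linarith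
  have he := er_nonneg hn
  have hl := log_ge hn
  have hM := vol_CM hn
  have hH := vol_CH hn
  have sM : CM n ⊆ Icc 0 (2 * Real.pi) := fun θ h => h.1
  have sH : CH n ⊆ Icc 0 (2 * Real.pi) := fun θ h => h.1
  have sP : CP n ⊆ CM n := fun θ h => ⟨h.1, hyp_sub hn2 h.2⟩
  have sP' := sP.trans sM
  have sB : CB n ⊆ CM n := fun θ h => ⟨h.1, h.2.1⟩
  have sB' := sB.trans sM
  have hcov : Icc 0 (2 * Real.pi) ⊆ CP n ∪ CH n := by
    intro θ hθ
    by_cases h : Complex.exp (θ * Complex.I) ∈ hyp n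
    · exact Or.inl ⟨hθ, h⟩
    · exact Or.inr ⟨hθ, h⟩
  have hu : (volume (CM n)).toReal ≤ 2 * Real.pi / 3 - 4 / √3 * Real.log n / n + 2 * er n :=
    ENNReal.toReal_le_of_le_ofReal (main_nonneg hn) hM
  have hnn : 0 ≤ 4 * Real.pi / 3 + 4 / √3 * Real.log n / n + 2 * er n := by
    have := Real.pi_pos
    positivity
  have hh : (volume (CH n)).toReal ≤ 4 * Real.pi / 3 + 4 / √3 * Real.log n / n + 2 * er n :=
    ENNReal.toReal_le_of_le_ofReal hnn hH
  have h2pi : 2 * Real.pi ≤ (volume (CP n)).toReal + (volume (CH n)).toReal := by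
    have h1 : ENNReal.ofReal (2 * Real.pi) ≤ volume (CP n) + volume (CH n) := by
      rw [← vol_Icc]
      exact (measure_mono hcov).trans (measure_union_le _ _)
    rw [← ENNReal.toReal_add (vol_ne_top sP') (vol_ne_top sH)]
    have h3 := ENNReal.toReal_mono (ENNReal.add_ne_top.2 ⟨vol_ne_top sP', vol_ne_top sH⟩) h1
    rwa [ENNReal.toReal_ofReal (by have := Real.pi_pos; positivity)] at h3
  have hPM : (volume (CP n)).toReal ≤ (volume (CM n)).toReal :=
    ENNReal.toReal_mono (vol_ne_top sM) (measure_mono sP)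
  have hsum : (volume (CM n)).toReal = (volume (CP n)).toReal + (volume (CB n)).toReal := by
    rw [← ENNReal.toReal_add (vol_ne_top sP') (vol_ne_top sB')]
    congr 1
    have h1 := measure_inter_add_sdiff (μ := volume) (CM n) (meas_H hn2)
    have h2 : CM n ∩ {θ : ℝ | Complex.exp (θ * Complex.I) ∈ hyp n} = CP n := by
      ext θ
      exact ⟨fun h => ⟨h.1.1, h.2⟩, fun h => ⟨sP h, h.2⟩⟩
    have h3 : CM n \ {θ : ℝ | Complex.exp (θ * Complex.I) ∈ hyp n} = CB n := by
      ext θ
      exact ⟨fun h => ⟨h.1.1, h.1.2, h.2⟩, fun h => ⟨⟨h.1, h.2.1⟩, h.2.2⟩⟩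
    rw [h2, h3] at h1
    exact h1.symm
  have key : 2 * Real.pi = 2 * Real.pi / 3 + 4 * Real.pi / 3 := by ring
  refine ⟨?_, ?_, ?_⟩
  · rw [abs_le]
    constructor
    · linarith
    · linarith
  · rw [abs_le]
    constructor
    · linarith
    · linarith
  · linarith

/-- the iterated logarithm of the degree -/
noncomputable def ll (n : ℕ) : ℝ := 1 + Real.log (1 + Real.log n)

theorem one_le_ll (n : ℕ) : 1 ≤ ll n := by
  have h1 := Real.log_natCast_nonneg n
  have h2 : 0 ≤ Real.log (1 + Real.log n) := Real.log_nonneg (by linarith)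
  unfold ll
  linarith

theorem vol_CB {n : ℕ} (hn : 2 ≤ n) :
    volume (CB n) ≤ ENNReal.ofReal (200000 * (ll n / n)) := by
  have hll := one_le_ll n
  have hn0 : (0:ℝ) < n := by
    have : (2:ℝ) ≤ n := by exact_mod_cast hn
    linarith
  rcases lt_or_ge n (10 ^ 6) with h | h
  · have h1 : CB n ⊆ {θ : ℝ | θ ∈ Icc 0 (2 * Real.pi) ∧
        n ∈ Pool.Agent.R240.Alm.bad (Complex.exp (θ * Complex.I))} :=
      fun θ h => ⟨h.1, hn, h.2.1, h.2.2⟩
    refine (measure_mono h1).trans ((Pool.Agent.R240.Alm.volume_bad hn).trans ?_)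
    apply ENNReal.ofReal_le_ofReal
    have h2 : Real.log n ≤ 14 := by
      rw [Real.log_le_iff_le_exp hn0]
      have h9 : Real.exp 14 = (Real.exp 1) ^ 14 := by rw [← Real.exp_nat_mul]; norm_num
      rw [h9]
      have hnr : (n:ℝ) < 10 ^ 6 := by exact_mod_cast h
      calc (n:ℝ) ≤ 10 ^ 6 := hnr.le
        _ ≤ (2.7182818283:ℝ) ^ 14 := by norm_num
        _ ≤ _ := by
          gcongr
          exact Real.exp_one_gt_d9.le
    rw [mul_div_assoc']
    apply div_le_div_of_nonneg_right _ hn0.le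
    linarith
  · have h1 : volume (CB n) = ENNReal.ofReal (volume (CB n)).toReal :=
      (ENNReal.ofReal_toReal (vol_ne_top fun θ h => h.1)).symm
    rw [h1]
    apply ENNReal.ofReal_le_ofReal
    refine (len_M h).2.2.trans ?_
    unfold er
    rw [mul_div_assoc', mul_div_assoc']
    apply div_le_div_of_nonneg_right _ hn0.le
    have hl := log_ge h
    have h2 : Real.log (Real.log n) ≤ Real.log (1 + Real.log n) :=
      Real.log_le_log (by linarith) (by linarith)
    unfold ll
    have h3 : 0 ≤ Real.log (1 + Real.log n) := Real.log_nonneg (by linarith)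
    linarith

/-! ### Almost every point of the circle -/

theorem ae_periodic {P : ℝ → Prop} (hper : ∀ θ, P (θ + 2 * Real.pi) ↔ P θ)
    (h : ∀ᵐ θ : ℝ, θ ∈ Icc 0 (2 * Real.pi) → P θ) : ∀ᵐ θ : ℝ, P θ := by
  have hpi := Real.pi_pos
  have hk : ∀ (k : ℕ) (x : ℝ), P (x + 2 * Real.pi * k) ↔ P x := by
    intro k
    induction k with
    | zero => intro x; simp
    | succ k ih =>
      intro x
      have : x + 2 * Real.pi * ((k + 1 : ℕ) : ℝ) = (x + 2 * Real.pi * k) + 2 * Real.pi := by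
        push_cast; ring
      rw [this, hper, ih]
  have hz : ∀ (k : ℤ) (x : ℝ), P (x + 2 * Real.pi * k) ↔ P x := by
    intro k x
    obtain ⟨m, rfl | rfl⟩ := Int.eq_nat_or_neg k
    · exact_mod_cast hk m x
    · have h1 := hk m (x + 2 * Real.pi * ((-(m:ℤ) : ℤ) : ℝ))
      have h2 : x + 2 * Real.pi * ((-(m:ℤ) : ℤ) : ℝ) + 2 * Real.pi * m = x := by
        push_cast; ring
      rw [h2] at h1
      exact h1.symm
  have h1 : ∀ k : ℤ, ∀ᵐ θ : ℝ, θ - 2 * Real.pi * k ∈ Icc 0 (2 * Real.pi) →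
      P (θ - 2 * Real.pi * k) := by
    intro k
    exact (measurePreserving_sub_right volume (2 * Real.pi * (k:ℝ))).quasiMeasurePreserving.ae h
  filter_upwards [ae_all_iff.2 h1] with θ hθ
  have h2 := hθ ⌊θ / (2 * Real.pi)⌋ ⟨by
    have := Int.floor_le (θ / (2 * Real.pi))
    rw [le_div_iff₀ (by positivity)] at this
    linarith, by
    have := Int.lt_floor_add_one (θ / (2 * Real.pi))
    rw [div_lt_iff₀ (by positivity)] at this
    linarith⟩
  have h3 := hz ⌊θ / (2 * Real.pi)⌋ (θ - 2 * Real.pi * ⌊θ / (2 * Real.pi)⌋)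
  have h4 : θ - 2 * Real.pi * (⌊θ / (2 * Real.pi)⌋ : ℝ) + 2 * Real.pi * ⌊θ / (2 * Real.pi)⌋ = θ := by
    ring
  rw [h4] at h3
  exact h3.2 h2

theorem exp_per (θ : ℝ) : Complex.exp (((θ + 2 * Real.pi : ℝ) : ℂ) * Complex.I) =
    Complex.exp (θ * Complex.I) := by
  have h1 : ((θ + 2 * Real.pi : ℝ) : ℂ) * Complex.I = θ * Complex.I + 2 * Real.pi * Complex.I := by
    push_cast; ring
  rw [h1, Complex.exp_add, Complex.exp_two_pi_mul_I, mul_one]

open Pool.Agent.R240.Alm (bad) in
/-- the weighted count of the exceptional degrees -/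
theorem ae_weights {a : ℕ → ℝ} (ha : ∀ n, 0 ≤ a n) (hs : Summable fun n : ℕ => a n * (ll n / n)) :
    ∀ᵐ θ : ℝ, Summable ((bad (Complex.exp (θ * Complex.I))).indicator a) := by
  apply ae_periodic
  · intro θ
    rw [exp_per]
  rw [← ae_restrict_iff' measurableSet_Icc]
  set B : ℕ → Set ℝ := fun n => {θ : ℝ | n ∈ bad (Complex.exp (θ * Complex.I))} with hB
  have hBm : ∀ n, MeasurableSet (B n) := by
    intro n
    rcases lt_or_ge n 2 with h | h
    · have : B n = ∅ := by
        rw [eq_empty_iff_forall_notMem]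
        intro θ hθ
        have := hθ.1
        omega
      rw [this]
      exact MeasurableSet.empty
    · exact meas_bad h
  have hmeas : ∀ n : ℕ, Measurable ((B n).indicator (fun _ => ENNReal.ofReal (a n))) := fun n =>
    measurable_const.indicator (hBm n)
  have hfin : ∀ᵐ θ ∂(volume.restrict (Icc 0 (2 * Real.pi))),
      ∑' n : ℕ, (B n).indicator (fun _ => ENNReal.ofReal (a n)) θ < ⊤ := by
    apply ae_lt_top (Measurable.tsum hmeas)
    rw [lintegral_tsum fun n => (hmeas n).aemeasurable]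
    have hbound : ∀ n : ℕ, ∫⁻ θ in Icc 0 (2 * Real.pi),
        (B n).indicator (fun _ => ENNReal.ofReal (a n)) θ ≤
        ENNReal.ofReal (200000 * (a n * (ll n / n))) := by
      intro n
      rw [lintegral_indicator_const (hBm n), Measure.restrict_apply (hBm n)]
      rcases lt_or_ge n 2 with h | h
      · have : B n ∩ Icc 0 (2 * Real.pi) = ∅ := by
          rw [eq_empty_iff_forall_notMem]
          rintro θ ⟨hθ, -⟩
          have := hθ.1
          omega
        rw [this, measure_empty, mul_zero]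
        exact zero_le
      · have h1 : B n ∩ Icc 0 (2 * Real.pi) ⊆ CB n := fun θ h => ⟨h.2, h.1.2.1, h.1.2.2⟩
        have h2 := (measure_mono h1).trans (vol_CB h)
        refine (mul_le_mul_right h2 _).trans (le_of_eq ?_)
        rw [← ENNReal.ofReal_mul (ha n)]
        congr 1
        ring
    refine ne_top_of_le_ne_top ?_ (ENNReal.tsum_le_tsum hbound)
    exact (hs.mul_left _).tsum_ofReal_ne_top
  filter_upwards [hfin] with θ hθ
  have h1 := ENNReal.summable_toReal hθ.ne
  refine h1.congr fun n => ?_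
  by_cases hn : n ∈ bad (Complex.exp (θ * Complex.I))
  · rw [indicator_of_mem hn, indicator_of_mem (show θ ∈ B n from hn), ENNReal.toReal_ofReal (ha n)]
  · rw [indicator_of_notMem hn, indicator_of_notMem (show θ ∉ B n from hn), ENNReal.toReal_zero]

end Pool.Agent.N228.UC
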