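import Mathlib
import Pool.Agent.N228.UC.Fin

/-! # The number of exceptional degrees at almost every point of the circle -/

set_option autoImplicit false

open Set MeasureTheory N62a1eb23 Filter Topology
open Pool.Agent.R240.Alm (bad)

namespace Pool.Agent.N228.UC

theorem summable_aux2 {p : ℝ} (hp : 1 < p) :
    Summable fun n : ℕ => 1 / ((n:ℝ) * (1 + Real.log n) * (ll n) ^ p) := by
  have hl : ∀ n : ℕ, 0 ≤ Real.log n := fun n => Real.log_natCast_nonneg n
  have hnn : ∀ n : ℕ, 0 ≤ 1 / ((n:ℝ) * (1 + Real.log n) * (ll n) ^ p) := fun n => by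
    have := hl n
    have := one_le_ll n
    positivity
  rw [← summable_condensed_iff_of_nonneg hnn]
  · have hlog2 := Real.log_two_gt_d9
    have hlog2' := Real.log_two_lt_d9
    rw [← summable_nat_add_iff 1]
    have h1 : Summable fun k : ℕ => (2 * (1 / 2 : ℝ) ^ (-p)) *
        (1 / (((k + 1 : ℕ) : ℝ) * (1 + Real.log (k + 1 : ℕ)) ^ p)) := by
      apply Summable.mul_left
      exact (summable_nat_add_iff (f := fun k : ℕ => 1 / ((k:ℝ) * (1 + Real.log k) ^ p)) 1).mpr
        (Pool.Agent.H462R2.AD.summable_aux hp)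
    refine Summable.of_nonneg_of_le (fun k => ?_) (fun k => ?_) h1
    · exact mul_nonneg (by positivity) (hnn _)
    · have hk := hl (k + 1)
      set m : ℝ := ((k + 1 : ℕ) : ℝ) with hm
      have hm1 : 1 ≤ m := by rw [hm]; push_cast; linarith [Nat.cast_nonneg (α := ℝ) k]
      have hlm : 0 ≤ Real.log m := Real.log_nonneg hm1
      have e1 : Real.log ((2 ^ (k + 1) : ℕ) : ℝ) = m * Real.log 2 := by
        rw [Nat.cast_pow, Real.log_pow]; norm_cast
      have e2 : ll (2 ^ (k + 1)) = 1 + Real.log (1 + m * Real.log 2) := by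
        unfold ll; rw [e1]
      have e3 : (1 / 2) * (1 + Real.log m) ≤ ll (2 ^ (k + 1)) := by
        rw [e2]
        have h4 : Real.log (m * (1 / 2)) ≤ Real.log (1 + m * Real.log 2) :=
          Real.log_le_log (by positivity) (by nlinarith)
        rw [Real.log_mul (by positivity) (by norm_num), one_div, Real.log_inv] at h4
        rcases le_or_gt (Real.log m) 1 with h5 | h5
        · have h6 : 0 ≤ Real.log (1 + m * Real.log 2) := Real.log_nonneg (by nlinarith)
          linarith
        · linarith
      have hpos : 0 < (1 / 2) * (1 + Real.log m) := by positivity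
      have hLL : 0 < ll (2 ^ (k + 1)) := lt_of_lt_of_le hpos e3
      rw [e1]
      have h7 : (1 / 2 : ℝ) ^ p * (1 + Real.log m) ^ p ≤ ll (2 ^ (k + 1)) ^ p := by
        rw [← Real.mul_rpow (by norm_num) (by positivity)]
        exact Real.rpow_le_rpow hpos.le e3 (by linarith)
      have h8 : (2:ℝ) ^ (k + 1) * (1 / (((2 ^ (k + 1) : ℕ) : ℝ) * (1 + m * Real.log 2) *
          ll (2 ^ (k + 1)) ^ p)) = 1 / ((1 + m * Real.log 2) * ll (2 ^ (k + 1)) ^ p) := by
        push_cast
        field_simp
      rw [h8]
      have h9 : (2 * (1 / 2 : ℝ) ^ (-p)) * (1 / (m * (1 + Real.log m) ^ p)) =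
          1 / ((m / 2) * ((1 / 2 : ℝ) ^ p * (1 + Real.log m) ^ p)) := by
        rw [Real.rpow_neg (by norm_num)]
        field_simp
      rw [h9]
      apply one_div_le_one_div_of_le (by positivity)
      apply mul_le_mul _ h7 (by positivity) (by positivity)
      nlinarith
  · intro m n hm hmn
    have hm' : (0:ℝ) < m := by exact_mod_cast hm
    have hmn' : (m:ℝ) ≤ n := by exact_mod_cast hmn
    have h1 := Real.log_le_log hm' hmn'
    have h2 := hl m
    have h3 := one_le_ll m
    have h4 : ll m ≤ ll n := by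
      unfold ll
      have := Real.log_le_log (show 0 < 1 + Real.log m by linarith)
        (show 1 + Real.log m ≤ 1 + Real.log n by linarith)
      linarith
    gcongr

/-- the number of the exceptional degrees up to `N` -/
theorem ae_count {s : ℝ} (hs : 2 < s) :
    ∀ᵐ θ : ℝ, ∃ K : ℝ, ∀ N : ℕ, 3 ≤ N →
      ((bad (Complex.exp (θ * Complex.I)) ∩ Iic N).ncard : ℝ) ≤
        K * (Real.log N * (1 + Real.log (Real.log N)) ^ s) := by
  have hl : ∀ n : ℕ, 0 ≤ Real.log n := fun n => Real.log_natCast_nonneg n
  set a : ℕ → ℝ := fun n => 1 / ((1 + Real.log n) * (ll n) ^ s) with hadef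
  have ha0 : ∀ n, 0 ≤ a n := fun n => by
    have := hl n
    have := one_le_ll n
    rw [hadef]
    positivity
  have hanti : ∀ {m n : ℕ}, 0 < m → m ≤ n → a n ≤ a m := by
    intro m n hm hmn
    have hm' : (0:ℝ) < m := by exact_mod_cast hm
    have hmn' : (m:ℝ) ≤ n := by exact_mod_cast hmn
    have h1 := Real.log_le_log hm' hmn'
    have h2 := hl m
    have h3 := one_le_ll m
    have h4 : ll m ≤ ll n := by
      unfold ll
      have := Real.log_le_log (show 0 < 1 + Real.log m by linarith)
        (show 1 + Real.log m ≤ 1 + Real.log n by linarith)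
      linarith
    rw [hadef]
    simp only
    gcongr
  have hsum : Summable fun n : ℕ => a n * (ll n / n) := by
    refine (summable_aux2 (p := s - 1) (by linarith)).congr fun n => ?_
    have h3 := one_le_ll n
    have h2 := hl n
    rw [hadef]
    simp only
    have h4 : ll n ^ s = ll n ^ (s - 1) * ll n := by
      rw [← Real.rpow_add_one (by linarith)]; congr 1; ring
    rw [h4]
    rcases Nat.eq_zero_or_pos n with rfl | hn
    · simp
    · have : (0:ℝ) < n := by exact_mod_cast hn
      field_simp
  filter_upwards [ae_weights ha0 hsum] with θ hθ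
  set S := bad (Complex.exp (θ * Complex.I)) with hS
  set F := ∑' n, S.indicator a n with hF
  have hF0 : 0 ≤ F := tsum_nonneg fun n => indicator_nonneg (fun n _ => ha0 n) n
  refine ⟨F * (2 * 2 ^ s), fun N hN => ?_⟩
  have hN0 : (0:ℝ) < N := by exact_mod_cast (by omega : 0 < N)
  have hN3 : (3:ℝ) ≤ N := by exact_mod_cast hN
  have hfin : (S ∩ Iic N).Finite := (finite_Iic N).subset inter_subset_right
  have hcard : ((S ∩ Iic N).ncard : ℝ) * a N ≤ F := by
    rw [Set.ncard_eq_toFinset_card _ hfin]
    calc ((hfin.toFinset.card : ℕ) : ℝ) * a N = ∑ n ∈ hfin.toFinset, a N := by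
          rw [Finset.sum_const, nsmul_eq_mul]
      _ ≤ ∑ n ∈ hfin.toFinset, S.indicator a n := by
          apply Finset.sum_le_sum
          intro n hn
          rw [Set.Finite.mem_toFinset] at hn
          rw [indicator_of_mem hn.1]
          exact hanti (by have := hn.1.1; omega) hn.2
      _ ≤ F := hθ.sum_le_tsum _ fun n _ => indicator_nonneg (fun n _ => ha0 n) n
  have h1 : 1 ≤ Real.log N := by
    rw [Real.le_log_iff_exp_le hN0]
    have := Real.exp_one_lt_d9
    linarith
  have h2 : 0 ≤ Real.log (Real.log N) := Real.log_nonneg h1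
  have h3 : ll N ≤ 2 * (1 + Real.log (Real.log N)) := by
    unfold ll
    have h4 : Real.log (1 + Real.log N) ≤ Real.log (2 * Real.log N) :=
      Real.log_le_log (by linarith) (by linarith)
    rw [Real.log_mul (by norm_num) (by linarith)] at h4
    have := Real.log_two_lt_d9
    linarith
  have h5 := one_le_ll N
  have hpos : 0 < (1 + Real.log N) * (ll N) ^ s := by positivity
  have h6 : ((S ∩ Iic N).ncard : ℝ) ≤ F * ((1 + Real.log N) * (ll N) ^ s) := by
    rw [hadef] at hcard
    simp only at hcard
    rw [mul_one_div, div_le_iff₀ hpos] at hcard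
    exact hcard
  have h7 : (1 + Real.log N) * (ll N) ^ s ≤
      (2 * 2 ^ s) * (Real.log N * (1 + Real.log (Real.log N)) ^ s) := by
    have h8 : ll N ^ s ≤ 2 ^ s * (1 + Real.log (Real.log N)) ^ s := by
      rw [← Real.mul_rpow (by norm_num) (by linarith)]
      exact Real.rpow_le_rpow (by linarith) h3 (by linarith)
    calc (1 + Real.log N) * (ll N) ^ s
        ≤ (2 * Real.log N) * (2 ^ s * (1 + Real.log (Real.log N)) ^ s) := by
          apply mul_le_mul (by linarith) h8 (by positivity) (by linarith)
      _ = _ := by ring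
  calc ((S ∩ Iic N).ncard : ℝ) ≤ F * ((1 + Real.log N) * (ll N) ^ s) := h6
    _ ≤ F * ((2 * 2 ^ s) * (Real.log N * (1 + Real.log (Real.log N)) ^ s)) := by gcongr
    _ = _ := by ring

end Pool.Agent.N228.UC
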